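import Pool.Agent.D0H57.SE.Idx

set_option autoImplicit false

/-!
# Assembly
-/

namespace Pool.Agent.D0H57.SE

open Finset Filter Topology Pool.Agent.NPC Pool.Agent.H595R2.PR Pool.Agent.R562.PR
open Pool.Agent.D0H57.PR

open Classical in
/-- all but a fraction `2 ^ (-m)` of the numbers `j < 8 ^ m` satisfy `P` -/
def AlmostAll (m : ℕ) (P : ℕ → Prop) : Prop := 2 ^ m * #{j ∈ range (8 ^ m) | ¬ P j} ≤ 8 ^ m

theorem AlmostAll.mono {m : ℕ} {P Q : ℕ → Prop} (h : ∀ j, P j → Q j) (hP : AlmostAll m P) :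
    AlmostAll m Q := by
  classical
  unfold AlmostAll at *
  refine le_trans (Nat.mul_le_mul_left _ (card_le_card ?_)) hP
  intro j hj
  rw [mem_filter] at hj ⊢
  exact ⟨hj.1, fun h' => hj.2 (h j h')⟩

theorem AlmostAll.of_card {m : ℕ} {P : ℕ → Prop} (S : Finset ℕ)
    (hS : ∀ j : ℕ, j < 8 ^ m → ¬ P j → j ∈ S) (hb : 2 ^ m * #S ≤ 8 ^ m) : AlmostAll m P := by
  classical
  unfold AlmostAll
  refine le_trans (Nat.mul_le_mul_left _ (card_le_card ?_)) hb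
  intro j hj
  rw [mem_filter, mem_range] at hj
  exact hS j hj.1 hj.2

/-- what holds for large `n` -/
theorem ev (θ : ℝ) (h0 : 0 < θ) (h1 : θ < 1) (C : ℕ) : ∃ N : ℕ, ∀ n : ℕ, N ≤ n →
    C ≤ ⌊(n : ℝ) ^ θ⌋₊ ∧ n ≤ 2 ^ ⌊(n : ℝ) ^ θ⌋₊ ∧ 4 * ⌊(n : ℝ) ^ θ⌋₊ ≤ n := by
  have e1 : ∀ᶠ n : ℕ in atTop, ((C : ℝ) + 2) ≤ (n : ℝ) ^ θ :=
    ((tendsto_rpow_atTop h0).comp tendsto_natCast_atTop_atTop).eventually_ge_atTop _
  have e2 : ∀ᶠ n : ℕ in atTop, (4 : ℝ) ≤ (n : ℝ) ^ (1 - θ) :=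
    ((tendsto_rpow_atTop (by linarith)).comp tendsto_natCast_atTop_atTop).eventually_ge_atTop _
  have e3 : ∀ᶠ n : ℕ in atTop, Real.log n ≤ 1 / 3 * (n : ℝ) ^ θ := by
    have h2 := ((isLittleO_log_rpow_atTop h0).comp_tendsto tendsto_natCast_atTop_atTop).bound
      (show (0 : ℝ) < 1 / 3 by norm_num)
    filter_upwards [h2, eventually_ge_atTop 1] with n hn hn1
    have hn1' : (1 : ℝ) ≤ n := by exact_mod_cast hn1
    simp only [Function.comp, Real.norm_eq_abs] at hn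
    rw [abs_of_nonneg (Real.log_nonneg hn1'),
      abs_of_nonneg (Real.rpow_nonneg (by linarith) _)] at hn
    exact hn
  obtain ⟨N, hN⟩ := eventually_atTop.1 (e1.and (e2.and e3))
  refine ⟨max N 1, fun n hn => ?_⟩
  obtain ⟨f1, f2, f3⟩ := hN n (le_trans (le_max_left _ _) hn)
  have hn1 : 1 ≤ n := le_trans (le_max_right _ _) hn
  have hn0 : (0 : ℝ) < n := by exact_mod_cast hn1
  set w : ℝ := (n : ℝ) ^ θ with hw
  have hw0 : 0 ≤ w := Real.rpow_nonneg hn0.le _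
  have hC : (0 : ℝ) ≤ C := Nat.cast_nonneg _
  have hM1 : (⌊w⌋₊ : ℝ) ≤ w := Nat.floor_le hw0
  have hM2 : w < (⌊w⌋₊ : ℝ) + 1 := Nat.lt_floor_add_one w
  refine ⟨Nat.le_floor (by linarith), ?_, ?_⟩
  · have h2 : Real.log n ≤ (⌊w⌋₊ : ℝ) * Real.log 2 := by
      have h3 := Real.log_two_gt_d9
      nlinarith
    have h3 : Real.log n ≤ Real.log ((2 : ℝ) ^ ⌊w⌋₊) := by
      rw [Real.log_pow]
      exact h2
    have h4 := (Real.log_le_log_iff hn0 (by positivity)).1 h3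
    exact_mod_cast h4
  · have h2 : (n : ℝ) = w * (n : ℝ) ^ (1 - θ) := by
      rw [hw, ← Real.rpow_add hn0]
      simp
    have h3 : 4 * (⌊w⌋₊ : ℝ) ≤ n := by
      rw [h2]
      nlinarith
    exact_mod_cast h3

/-- the number of factors -/
theorem k_le {θ : ℝ} {n M : ℕ} (h : (n : ℝ) ^ θ < (M : ℝ) + 1) (hM : 1 ≤ M) (hMn : M ≤ n) :
    ((n / M + 1 : ℕ) : ℝ) ≤ 4 * (n : ℝ) ^ (1 - θ) := by
  have hn1 : 1 ≤ n := hM.trans hMn
  have hn0 : (0 : ℝ) < n := by exact_mod_cast hn1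
  have hM0 : (0 : ℝ) < M := by exact_mod_cast hM
  have h2 : (n : ℝ) ^ θ ≤ 2 * M := by
    have : (1 : ℝ) ≤ M := by exact_mod_cast hM
    linarith
  have h3 : ((n / M + 1 : ℕ) : ℝ) ≤ 2 * (n : ℝ) / M := by
    push_cast
    have h4 : ((n / M : ℕ) : ℝ) ≤ (n : ℝ) / M := Nat.cast_div_le
    have h5 : (1 : ℝ) ≤ (n : ℝ) / M := by
      rw [le_div_iff₀ hM0, one_mul]
      exact_mod_cast hMn
    calc ((n / M : ℕ) : ℝ) + 1 ≤ (n : ℝ) / M + (n : ℝ) / M := by linarith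
      _ = _ := by ring
  refine h3.trans ?_
  rw [div_le_iff₀ hM0, Real.rpow_sub hn0, Real.rpow_one]
  have h4 : 0 < (n : ℝ) ^ θ := Real.rpow_pos_of_pos hn0 _
  rw [show 4 * ((n : ℝ) / (n : ℝ) ^ θ) * M =
    (4 * n * M) / (n : ℝ) ^ θ by ring, le_div_iff₀ h4]
  nlinarith

theorem k_spec {n M : ℕ} (hM : 1 ≤ M) : n ≤ M * (n / M + 1) ∧ M * (n / M + 1) ≤ n + M := by
  have h1 := Nat.div_add_mod n M
  have h2 := Nat.mod_lt n (by omega : 0 < M)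
  constructor
  · rw [Nat.mul_add]; omega
  · rw [Nat.mul_add]; omega

theorem e_k {e n M : ℕ} (hM : 2 * e + 2 ≤ M) (hn : 2 * e + 4 ≤ n) :
    e * (n / M + 1) + 1 < n := by
  have h1 : M * (n / M) ≤ n := Nat.mul_div_le n M
  have h2 : (2 * e) * (n / M) ≤ M * (n / M) := Nat.mul_le_mul_right _ (by omega)
  have h3 : (2 * e) * (n / M) = 2 * (e * (n / M)) := by ring
  rw [Nat.mul_add]
  omega

/-- powers of `n` -/
theorem to_rpow {n a : ℕ} {b : ℝ} (hn : 1 ≤ n) (h : (a : ℝ) ≤ b) :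
    ((n ^ a : ℕ) : ℝ) ≤ (n : ℝ) ^ b := by
  have hn1 : (1 : ℝ) ≤ n := by exact_mod_cast hn
  calc ((n ^ a : ℕ) : ℝ) = (n : ℝ) ^ (a : ℝ) := by rw [Real.rpow_natCast]; push_cast; rfl
    _ ≤ _ := Real.rpow_le_rpow_of_exponent_le hn1 h

/-- the seeds -/
theorem seeds {p M : ℕ} [hp : Fact p.Prime] (h2 : p.size ≤ 2 ^ M) (h4 : 4 * M ≤ p.size) :
    AlmostAll M (fun j => orderOf ((FF p M j : ℕ) : ZMod p) = Nat.card (Gam p (2 ^ M))) := by
  classical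
  have hpp : p.Prime := hp.out
  have hs : 2 ≤ p.size := by
    have h : (2 : ℕ).size ≤ p.size := Nat.size_le_size hpp.two_le
    have h' : (2 : ℕ).size = 2 := by decide
    omega
  have hpn' : 2 ^ (p.size - 1) ≤ p := Nat.lt_size.1 (by omega)
  have hpY : pY p M = 2 ^ M := by
    rw [pY_eq]
    congr 1
    omega
  have hlt : 2 ^ M < p := by
    refine lt_of_lt_of_le ?_ hpn'
    exact Nat.pow_lt_pow_right (by norm_num) (by omega)
  have hcube : (2 ^ M) ^ 3 = 8 ^ M := by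
    rw [← pow_mul, mul_comm, pow_mul]
    norm_num
  have h := out_order (p := p) hlt Nat.one_le_two_pow
  rw [hcube] at h
  unfold FF
  rw [hpY]
  refine AlmostAll.of_card _ (fun j hj1 hj2 => mem_filter.2 ⟨mem_range.2 hj1, hj2⟩)
    (le_trans (Nat.mul_le_mul_left _ h) ?_)
  calc 2 ^ M * (2 ^ M * p.size) ≤ 2 ^ M * (2 ^ M * 2 ^ M) :=
        Nat.mul_le_mul_left _ (Nat.mul_le_mul_left _ h2)
    _ = (2 ^ M) ^ 3 := by ring
    _ = 8 ^ M := hcube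

/-- every prime -/
theorem part1 {e : ℕ} (he : ∀ M y : ℕ, 2 ^ e ≤ y → y ≤ 2 ^ M → y ≤ 2 * M * Nat.primeCounting y)
    (p M : ℕ) (hpp : p.Prime) (h1 : 2 * e + 2 ≤ M) (h2 : p.size ≤ 2 ^ M) (h3 : 4 * M ≤ p.size) :
    ∃ r : ℕ, 1 ≤ r ∧ r ∣ p - 1 ∧ r ≤ (8 * p.size) ^ (p.size / M + 1) ∧
      AlmostAll M (fun j => orderOf ((FF p M j : ℕ) : ZMod p) = (p - 1) / r) := by
  have : Fact p.Prime := ⟨hpp⟩
  obtain ⟨k1, k2⟩ := k_spec (n := p.size) (M := M) (by omega)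
  have hidx := idx he (p := p) (M := M) (k := p.size / M + 1)
    (Nat.succ_pos _) (by omega) k1 (e_k h1 (by omega))
  have hcard := Pool.Agent.TH668.PR.card_mul_index (Gam p (2 ^ M))
  have hi0 : 0 < (Gam p (2 ^ M)).index := Nat.pos_of_ne_zero Subgroup.index_ne_zero_of_finite
  refine ⟨(Gam p (2 ^ M)).index, hi0, ⟨_, by rw [Nat.mul_comm]; exact hcard.symm⟩, ?_, ?_⟩
  · refine hidx.trans (Nat.pow_le_pow_left ?_ _)
    calc 4 * M * (p.size / M + 1) = 4 * (M * (p.size / M + 1)) := by ring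
      _ ≤ 4 * (2 * p.size) := Nat.mul_le_mul_left _ (by omega)
      _ = 8 * p.size := by ring
  · refine (seeds (p := p) (M := M) h2 h3).mono fun j hj => ?_
    rw [hj, ← hcard, Nat.mul_div_cancel _ hi0]

open Classical in
/-- few exceptional primes -/
theorem part2 {e : ℕ} (he : ∀ M y : ℕ, 2 ^ e ≤ y → y ≤ 2 ^ M → y ≤ 2 * M * Nat.primeCounting y)
    (i M : ℕ) (h1 : 2 * e + 2 ≤ M) (h2 : i ≤ 2 ^ M) (h3 : 4 * M ≤ i) (E : Finset ℕ)
    (hE : ∀ p ∈ E, p.Prime ∧ p.size = i ∧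
      ¬ AlmostAll M (fun j => orderOf ((FF p M j : ℕ) : ZMod p) = p - 1)) :
    #E ≤ 12 * (32 * i) ^ (2 * (i / M + 1)) := by
  obtain ⟨k1, k2⟩ := k_spec (n := i) (M := M) (by omega)
  have h := exc he (i := i) (M := M) (k := i / M + 1) (by omega) (by omega) k1 (by omega)
    (by omega) E (by
      intro p hp
      obtain ⟨h6, h5, h7⟩ := hE p hp
      refine ⟨h6, h5, fun htop => h7 ?_⟩
      have : Fact p.Prime := ⟨h6⟩
      have hs := seeds (p := p) (M := M) (by rw [h5]; exact h2) (by rw [h5]; exact h3)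
      refine hs.mono fun j hj => ?_
      rw [hj, htop, Subgroup.card_top, Nat.card_eq_fintype_card, ZMod.card_units])
  refine h.trans (Nat.mul_le_mul_left _ (Nat.pow_le_pow_left ?_ _))
  calc 16 * M * (i / M + 1) = 16 * (M * (i / M + 1)) := by ring
    _ ≤ 16 * (2 * i) := Nat.mul_le_mul_left _ (by omega)
    _ = 32 * i := by ring

/-- every prime, powers of `n` -/
theorem part3 {e : ℕ} (he : ∀ M y : ℕ, 2 ^ e ≤ y → y ≤ 2 ^ M → y ≤ 2 * M * Nat.primeCounting y)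
    (θ : ℝ) (h0 : 0 < θ) (h1 : θ < 1) : ∃ p₀ : ℕ, ∀ p : ℕ, p₀ ≤ p → p.Prime →
    ∃ r : ℕ, 1 ≤ r ∧ r ∣ p - 1 ∧ (r : ℝ) ≤ (p.size : ℝ) ^ (16 * (p.size : ℝ) ^ (1 - θ)) ∧
      AlmostAll ⌊(p.size : ℝ) ^ θ⌋₊ (fun j =>
        orderOf ((FF p ⌊(p.size : ℝ) ^ θ⌋₊ j : ℕ) : ZMod p) = (p - 1) / r) := by
  obtain ⟨N, hN⟩ := ev θ h0 h1 (2 * e + 2)
  refine ⟨2 ^ N, fun p hp hpp => ?_⟩
  have hpN : N ≤ p.size := (Nat.lt_size.2 hp).le
  obtain ⟨f1, f2, f3⟩ := hN p.size hpN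
  have hlt : (p.size : ℝ) ^ θ < (⌊(p.size : ℝ) ^ θ⌋₊ : ℝ) + 1 := Nat.lt_floor_add_one _
  set M := ⌊(p.size : ℝ) ^ θ⌋₊ with hM
  obtain ⟨r, r1, r2, r3, r4⟩ := part1 he p M hpp f1 f2 f3
  refine ⟨r, r1, r2, ?_, r4⟩
  have hk := k_le hlt (by omega) (by omega)
  set k := p.size / M + 1 with hkd
  have h5 : (8 * p.size) ^ k ≤ p.size ^ (4 * k) := by
    rw [pow_mul]
    refine Nat.pow_le_pow_left ?_ k
    have h7 : 8 ≤ p.size ^ 3 := by
      calc 8 = 2 ^ 3 := by norm_num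
        _ ≤ p.size ^ 3 := Nat.pow_le_pow_left (by omega) 3
    calc 8 * p.size ≤ p.size ^ 3 * p.size := Nat.mul_le_mul_right _ h7
      _ = p.size ^ 4 := by rw [← pow_succ]
  have h8 : (r : ℝ) ≤ ((p.size ^ (4 * k) : ℕ) : ℝ) := by exact_mod_cast r3.trans h5
  refine h8.trans (to_rpow (by omega) ?_)
  push_cast
  linarith

open Classical in
/-- few exceptional primes, powers of `n` -/
theorem part4 {e : ℕ} (he : ∀ M y : ℕ, 2 ^ e ≤ y → y ≤ 2 ^ M → y ≤ 2 * M * Nat.primeCounting y)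
    (θ : ℝ) (h0 : 0 < θ) (h1 : θ < 1) : ∃ x₀ : ℕ, ∀ x : ℕ, x₀ ≤ x →
    (#{p ∈ range (x + 1) | p.Prime ∧ ¬ AlmostAll ⌊(p.size : ℝ) ^ θ⌋₊ (fun j =>
        orderOf ((FF p ⌊(p.size : ℝ) ^ θ⌋₊ j : ℕ) : ZMod p) = p - 1)} : ℝ) ≤
      (x.size : ℝ) ^ (67 * (x.size : ℝ) ^ (1 - θ)) := by
  obtain ⟨N, hN⟩ := ev θ h0 h1 (2 * e + 2)
  have hθ : 0 ≤ 1 - θ := by linarith
  refine ⟨2 ^ (2 ^ N + 2), fun x hx => ?_⟩
  set n := x.size with hn
  have hn1 : 2 ^ N + 2 < n := Nat.lt_size.2 hx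
  set Bad : ℕ → Prop := fun p => p.Prime ∧ ¬ AlmostAll ⌊(p.size : ℝ) ^ θ⌋₊ (fun j =>
        orderOf ((FF p ⌊(p.size : ℝ) ^ θ⌋₊ j : ℕ) : ZMod p) = p - 1) with hBad
  set w : ℝ := (n : ℝ) ^ (1 - θ) with hw
  have h2N : 1 ≤ 2 ^ N := Nat.one_le_two_pow
  have hnr : (1 : ℝ) ≤ n := by exact_mod_cast (by omega : 1 ≤ n)
  have hw1 : 1 ≤ w := Real.one_le_rpow hnr hθ
  -- the blocks
  have hblock : ∀ i : ℕ, i ≤ n → (#{p ∈ range (x + 1) | p.size = i ∧ N ≤ i ∧ Bad p} : ℝ) ≤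
      (n : ℝ) ^ (64 * w) := by
    intro i hi
    rcases Nat.lt_or_ge i N with hiN | hiN
    · have h0 : {p ∈ range (x + 1) | p.size = i ∧ N ≤ i ∧ Bad p} = ∅ := by
        refine filter_eq_empty_iff.2 fun p _ h => ?_
        omega
      rw [h0, card_empty, Nat.cast_zero]
      positivity
    obtain ⟨f1, f2, f3⟩ := hN i hiN
    have hlt : (i : ℝ) ^ θ < (⌊(i : ℝ) ^ θ⌋₊ : ℝ) + 1 := Nat.lt_floor_add_one _
    have hk := k_le hlt (by omega) (by omega)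
    have hE := part2 he i ⌊(i : ℝ) ^ θ⌋₊ f1 f2 f3
      {p ∈ range (x + 1) | p.size = i ∧ N ≤ i ∧ Bad p} (by
        intro p hp
        rw [mem_filter] at hp
        obtain ⟨_, h5, _, h6, h7⟩ := hp
        rw [h5] at h7
        exact ⟨h6, h5, h7⟩)
    set M := ⌊(i : ℝ) ^ θ⌋₊ with hM
    set k := i / M + 1 with hkd
    have hk0 : 1 ≤ k := Nat.succ_pos _
    have h5 : 12 * (32 * i) ^ (2 * k) ≤ i ^ (16 * k) := by
      have h6 : 32 * i ≤ i ^ 6 := by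
        have h7 : 32 ≤ i ^ 5 := by
          calc 32 = 2 ^ 5 := by norm_num
            _ ≤ i ^ 5 := Nat.pow_le_pow_left (by omega) 5
        calc 32 * i ≤ i ^ 5 * i := Nat.mul_le_mul_right _ h7
          _ = i ^ 6 := by rw [← pow_succ]
      have h7 : 12 ≤ i ^ 4 := by
        calc 12 ≤ 2 ^ 4 := by norm_num
          _ ≤ i ^ 4 := Nat.pow_le_pow_left (by omega) 4
      calc 12 * (32 * i) ^ (2 * k) ≤ i ^ 4 * (i ^ 6) ^ (2 * k) :=
            Nat.mul_le_mul h7 (Nat.pow_le_pow_left h6 _)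
        _ = i ^ (4 + 12 * k) := by
            rw [← pow_mul, ← pow_add]
            congr 1
            ring
        _ ≤ i ^ (16 * k) := Nat.pow_le_pow_right (by omega) (by omega)
    have h6 : (#{p ∈ range (x + 1) | p.size = i ∧ N ≤ i ∧ Bad p} : ℝ) ≤
        ((i ^ (16 * k) : ℕ) : ℝ) := by exact_mod_cast hE.trans h5
    refine h6.trans ((to_rpow (b := 64 * w) (by omega) ?_).trans ?_)
    · have h7 : (i : ℝ) ^ (1 - θ) ≤ w :=
        Real.rpow_le_rpow (Nat.cast_nonneg _) (by exact_mod_cast hi) hθ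
      push_cast
      linarith
    · exact Real.rpow_le_rpow (Nat.cast_nonneg _) (by exact_mod_cast hi) (by positivity)
  -- decomposition
  have hsub : (range (x + 1)).filter Bad ⊆ range (2 ^ N) ∪
      (range (n + 1)).biUnion fun i => {p ∈ range (x + 1) | p.size = i ∧ N ≤ i ∧ Bad p} := by
    intro p hp
    rw [mem_filter] at hp
    rw [mem_union, mem_biUnion]
    rcases Nat.lt_or_ge p.size N with h | h
    · left
      rw [mem_range]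
      exact lt_of_lt_of_le (Nat.lt_size_self p) (Nat.pow_le_pow_right (by norm_num) h.le)
    · right
      refine ⟨p.size, ?_, ?_⟩
      · rw [mem_range, hn]
        have h1 : p ≤ x := by
          have := mem_range.1 hp.1
          omega
        have := Nat.size_le_size h1
        omega
      · rw [mem_filter]
        exact ⟨hp.1, rfl, h, hp.2⟩
  have hc1 : #((range (x + 1)).filter Bad) ≤ 2 ^ N +
      ∑ i ∈ range (n + 1), #{p ∈ range (x + 1) | p.size = i ∧ N ≤ i ∧ Bad p} := by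
    refine (card_le_card hsub).trans ((card_union_le _ _).trans ?_)
    rw [card_range]
    exact Nat.add_le_add_left card_biUnion_le _
  have hc2 : (#((range (x + 1)).filter Bad) : ℝ) ≤ (2 : ℝ) ^ N +
      ∑ i ∈ range (n + 1), (#{p ∈ range (x + 1) | p.size = i ∧ N ≤ i ∧ Bad p} : ℝ) := by
    exact_mod_cast hc1
  have hc3 : ∑ i ∈ range (n + 1), (#{p ∈ range (x + 1) | p.size = i ∧ N ≤ i ∧ Bad p} : ℝ) ≤
      ((n : ℝ) + 1) * (n : ℝ) ^ (64 * w) := by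
    refine (sum_le_sum fun i hi => hblock i (by rw [mem_range] at hi; omega)).trans ?_
    rw [sum_const, card_range, nsmul_eq_mul]
    push_cast
    exact le_rfl
  have hA : (1 : ℝ) ≤ (n : ℝ) ^ (64 * w) := Real.one_le_rpow hnr (by positivity)
  have hn2 : (2 : ℝ) ^ N + 2 ≤ n := by exact_mod_cast hn1.le
  have hn3 : (2 : ℝ) ≤ n := by
    have : (0 : ℝ) < (2 : ℝ) ^ N := by positivity
    linarith
  have hfin : (2 : ℝ) ^ N + ((n : ℝ) + 1) * (n : ℝ) ^ (64 * w) ≤ (n : ℝ) ^ 3 * (n : ℝ) ^ (64 * w) := by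
    have h5 : (2 : ℝ) ^ N ≤ (n : ℝ) * (n : ℝ) ^ (64 * w) := by nlinarith
    have h6 : (n : ℝ) + ((n : ℝ) + 1) ≤ (n : ℝ) ^ 3 := by nlinarith [sq_nonneg ((n : ℝ) - 2)]
    calc (2 : ℝ) ^ N + ((n : ℝ) + 1) * (n : ℝ) ^ (64 * w)
        ≤ (n : ℝ) * (n : ℝ) ^ (64 * w) + ((n : ℝ) + 1) * (n : ℝ) ^ (64 * w) := by linarith
      _ = ((n : ℝ) + ((n : ℝ) + 1)) * (n : ℝ) ^ (64 * w) := by ring
      _ ≤ _ := mul_le_mul_of_nonneg_right h6 (by positivity)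
  have hpow : (n : ℝ) ^ 3 * (n : ℝ) ^ (64 * w) ≤ (n : ℝ) ^ (67 * w) := by
    have h7 : (n : ℝ) ^ 3 = (n : ℝ) ^ (3 : ℝ) := by norm_cast
    rw [h7, ← Real.rpow_add (by linarith)]
    exact Real.rpow_le_rpow_of_exponent_le hnr (by linarith)
  linarith

end Pool.Agent.D0H57.SE
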