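import Pool.Agent.D0H57.SE.Two

set_option autoImplicit false

/-!
# The trade-off at all scales
-/

namespace Pool.Agent.D0H57.SE

open Finset Filter Topology Pool.Agent.NPC Pool.Agent.H595R2.PR Pool.Agent.R562.PR
open Pool.Agent.D0H57.PR

theorem exists_smooth : ∃ C : ℕ, Smooth C := smooth_all

/-- every prime -/
theorem every {C : ℕ} (hC : Smooth C) (p M : ℕ) (hpp : p.Prime) (h1 : C ≤ M) (hM : 1 ≤ M)
    (h2 : p.size ≤ 2 ^ M) (h3 : 4 * M ≤ p.size) :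
    ∃ r : ℕ, 1 ≤ r ∧ r ∣ p - 1 ∧ r ≤ (8 * (p.size / M + 1)) ^ (2 * (p.size / M + 1)) ∧
      AlmostAll M (fun j => orderOf ((FF p M j : ℕ) : ZMod p) = (p - 1) / r) := by
  have : Fact p.Prime := ⟨hpp⟩
  have hcard := Pool.Agent.TH668.PR.card_mul_index (Gam p (2 ^ M))
  have hi0 : 0 < (Gam p (2 ^ M)).index := Nat.pos_of_ne_zero Subgroup.index_ne_zero_of_finite
  refine ⟨(Gam p (2 ^ M)).index, hi0, ⟨_, by rw [Nat.mul_comm]; exact hcard.symm⟩,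
    idx2 hC h1 hM h3, ?_⟩
  refine (seeds (p := p) (M := M) h2 h3).mono fun j hj => ?_
  rw [hj, ← hcard, Nat.mul_div_cancel _ hi0]

open Classical in
/-- few exceptional primes -/
theorem few2 {C : ℕ} (hC : Smooth C) (n M : ℕ) (h1 : C ≤ M) (hM : 1 ≤ M) (h2 : n ≤ 2 ^ M)
    (h3 : 4 * M ≤ n) (E : Finset ℕ)
    (hE : ∀ p ∈ E, p < 2 ^ n ∧ p.Prime ∧ 4 * M ≤ p.size ∧
      ¬ AlmostAll M (fun j => orderOf ((FF p M j : ℕ) : ZMod p) = p - 1)) :
    #E ≤ 24 * (16 * (n / M + 1)) ^ (4 * (n / M + 1)) := by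
  refine exc2 hC h1 hM h3 E fun p hp => ?_
  obtain ⟨a1, a2, a3, a4⟩ := hE p hp
  have : Fact p.Prime := ⟨a2⟩
  have hs : p.size ≤ n := Nat.size_le.2 a1
  have hpn' : 2 ^ (p.size - 1) ≤ p := Nat.lt_size.1 (by omega)
  refine ⟨a2, a1, lt_of_lt_of_le (Nat.pow_lt_pow_right (by norm_num) (by omega)) hpn',
    fun htop => a4 ?_⟩
  refine (seeds (p := p) (M := M) (hs.trans h2) a3).mono fun j hj => ?_
  rw [hj, htop, Subgroup.card_top, Nat.card_eq_fintype_card, ZMod.card_units]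

end Pool.Agent.D0H57.SE
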