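import Pool.Agent.D0H57.SE.Run
import Pool.Agent.H595R2.PR.Core

set_option autoImplicit false

/-!
# The result of the loop, as an element of the group
-/

namespace Pool.Agent.D0H57.SE

open Finset Pool.Agent.NPC Pool.Agent.H595R2.PR Pool.Agent.R562.PR Pool.Agent.D0H57.PR

/-- what is known after the numbers `2, …, k + 1` -/
structure Known (p Y k : ℕ) : Prop where
  k1 : (MS p Y k).1 ∣ p - 1
  k2 : ∀ q : ℕ, q.Prime → (MS p Y k).1.factorization q =
    if q ≤ k + 1 then 0 else (p - 1).factorization q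

theorem known {p Y : ℕ} (hp : 2 ≤ p) : ∀ k : ℕ, Known p Y k := by
  intro k
  induction k with
  | zero =>
    have h0 : (MS p Y 0).1 = p - 1 := by
      unfold MS
      simp only
      omega
    refine ⟨by rw [h0], fun q hq => ?_⟩
    rw [h0, if_neg (by have := hq.two_le; omega)]
  | succ k ih =>
    obtain ⟨k1, k2⟩ := ih
    have hM0 : 0 < (MS p Y k).1 := (hits p Y k).1
    by_cases hm : (MS p Y k).1 % (k + 2) = 0
    · have hd : (k + 2) ∣ (MS p Y k).1 := Nat.dvd_of_mod_eq_zero hm
      have hpr : (k + 2).Prime := by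
        have h1 : (k + 2).minFac.Prime := Nat.minFac_prime (by omega)
        have h2 : (k + 2).minFac ∣ (MS p Y k).1 := (Nat.minFac_dvd _).trans hd
        have h3 : ¬ (k + 2).minFac ≤ k + 1 := fun h => by
          have h4 := k2 _ h1
          rw [if_pos h] at h4
          have h5 := h1.factorization_pos_of_dvd hM0.ne' h2
          omega
        have h4 := Nat.minFac_le (n := k + 2) (by omega)
        have h5 : (k + 2).minFac = k + 2 := by omega
        rw [← h5]
        exact h1
      have hlt : (MS p Y k).1 < 2 ^ p.size :=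
        lt_of_le_of_lt ((Nat.le_of_dvd (by omega) k1).trans (Nat.sub_le _ _)) (Nat.lt_size_self p)
      have hst := strip_eq hpr hM0 hlt
      have e1 : (MS p Y (k + 1)).1 = strip (k + 2) p.size (MS p Y k).1 := by
        rw [MS, if_pos hm]
      refine ⟨?_, fun q hq => ?_⟩
      · rw [e1, hst]
        exact (Nat.ordCompl_dvd _ _).trans k1
      · rw [e1, hst, Nat.factorization_ordCompl]
        by_cases hqk : q = k + 2
        · subst hqk
          rw [Finsupp.erase_same, if_pos (by omega)]
        · rw [Finsupp.erase_ne hqk, k2 q hq]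
          by_cases h1 : q ≤ k + 1
          · rw [if_pos h1, if_pos (by omega)]
          · rw [if_neg h1, if_neg (by omega)]
    · have e : MS p Y (k + 1) = MS p Y k := by rw [MS, if_neg hm]
      have hnd : ¬ (k + 2) ∣ (MS p Y k).1 := fun h => hm (Nat.mod_eq_zero_of_dvd h)
      refine ⟨by rw [e]; exact k1, fun q hq => ?_⟩
      rw [e]
      by_cases hqk : q = k + 2
      · subst hqk
        rw [if_pos (by omega), Nat.factorization_eq_zero_of_not_dvd hnd]
      · rw [k2 q hq]
        by_cases h1 : q ≤ k + 1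
        · rw [if_pos h1, if_pos (by omega)]
        · rw [if_neg h1, if_neg (by omega)]

section grp

variable {p : ℕ} [hp : Fact p.Prime]

theorem corb_order {Y l : ℕ} (hY : Y < p) (hl : l.Prime) :
    orderOf (corb p p.size Y l) = l ^ (Nat.card (Gam p Y)).factorization l := by
  obtain ⟨u, hu1, hu2⟩ := best_order hY hl
  have : u = corb p p.size Y l := Units.ext (by rw [hu1, cor_best hY])
  rw [← this]
  exact hu2

theorem card_Gam_dvd (Y : ℕ) : Nat.card (Gam p Y) ∣ p - 1 := by
  have h := Subgroup.card_subgroup_dvd_card (Gam p Y)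
  rwa [Nat.card_eq_fintype_card (α := (ZMod p)ˣ), ZMod.card_units] at h

theorem prod_known {Y : ℕ} (hY : Y < p) : ∀ k : ℕ, (((MS p Y k).2.1 : ℕ) : ZMod p) =
    ((∏ l ∈ (range (k + 2)).filter Nat.Prime, corb p p.size Y l : (ZMod p)ˣ) : ZMod p) := by
  have hpp : p.Prime := hp.out
  intro k
  induction k with
  | zero =>
    have h0 : (range (0 + 2)).filter Nat.Prime = ∅ := by decide
    rw [h0, prod_empty]
    unfold MS
    simp only
    rw [cor_md]
    simp
  | succ k ih =>
    have hk := known (Y := Y) hpp.two_le k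
    have hsplit : ∏ l ∈ (range (k + 1 + 2)).filter Nat.Prime, corb p p.size Y l =
        (∏ l ∈ (range (k + 2)).filter Nat.Prime, corb p p.size Y l) *
          (if (k + 2).Prime then corb p p.size Y (k + 2) else 1) := by
      rw [prod_filter, prod_filter, show k + 1 + 2 = (k + 2) + 1 by ring, prod_range_succ]
    rw [hsplit, Units.val_mul, ← ih]
    by_cases hm : (MS p Y k).1 % (k + 2) = 0
    · have hd : (k + 2) ∣ (MS p Y k).1 := Nat.dvd_of_mod_eq_zero hm
      have hM0 : 0 < (MS p Y k).1 := (hits p Y k).1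
      have hpr : (k + 2).Prime := by
        have h1 : (k + 2).minFac.Prime := Nat.minFac_prime (by omega)
        have h2 : (k + 2).minFac ∣ (MS p Y k).1 := (Nat.minFac_dvd _).trans hd
        have h3 : ¬ (k + 2).minFac ≤ k + 1 := fun h => by
          have h4 := hk.k2 _ h1
          rw [if_pos h] at h4
          have h5 := h1.factorization_pos_of_dvd hM0.ne' h2
          omega
        have h4 := Nat.minFac_le (n := k + 2) (by omega)
        have h5 : (k + 2).minFac = k + 2 := by omega
        rw [← h5]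
        exact h1
      have e : MS p Y (k + 1) = (strip (k + 2) p.size (MS p Y k).1,
        md p ((MS p Y k).2.1 * best p p.size Y (k + 2)), (MS p Y k).2.2 + 1) := by
        rw [MS, if_pos hm]
      rw [e, if_pos hpr]
      simp only
      rw [cor_md, Nat.cast_mul, cor_best hY]
    · have e : MS p Y (k + 1) = MS p Y k := by rw [MS, if_neg hm]
      rw [e]
      by_cases hpr : (k + 2).Prime
      · rw [if_pos hpr]
        have hnd : ¬ (k + 2) ∣ (MS p Y k).1 := fun h => hm (Nat.mod_eq_zero_of_dvd h)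
        have h1 := hk.k2 _ hpr
        rw [if_neg (by omega), Nat.factorization_eq_zero_of_not_dvd hnd] at h1
        have h2 : ¬ (k + 2) ∣ p - 1 := fun h => by
          have h3 := hpr.factorization_pos_of_dvd (by have := hpp.two_le; omega) h
          omega
        have h3 : ¬ (k + 2) ∣ Nat.card (Gam p Y) := fun h => h2 (h.trans (card_Gam_dvd Y))
        have h4 := corb_order hY hpr
        rw [Nat.factorization_eq_zero_of_not_dvd h3, pow_zero, orderOf_eq_one_iff] at h4
        rw [h4]
        simp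
      · rw [if_neg hpr]
        simp

/-- the exponent -/
def Ex (p Y : ℕ) : ℕ := (p - 1) / (MS p Y (Y ^ 3 - 1)).1

theorem Ex_fac {Y : ℕ} (hY1 : 1 ≤ Y) {q : ℕ} (hq : q.Prime) : (Ex p Y).factorization q =
    if q ≤ Y ^ 3 then (p - 1).factorization q else 0 := by
  have hk := known (Y := Y) hp.out.two_le (Y ^ 3 - 1)
  have h3 : 1 ≤ Y ^ 3 := Nat.one_le_pow _ _ hY1
  unfold Ex
  rw [Nat.factorization_div hk.k1, Finsupp.tsub_apply, hk.k2 q hq]
  by_cases h : q ≤ Y ^ 3
  · rw [if_pos (by omega), if_pos h, Nat.sub_zero]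
  · rw [if_neg (by omega), if_neg h, Nat.sub_self]

theorem Ex_pos (Y : ℕ) : 0 < Ex p Y := by
  have hk := known (Y := Y) hp.out.two_le (Y ^ 3 - 1)
  have h0 : 0 < p - 1 := by have := hp.out.two_le; omega
  exact Nat.div_pos (Nat.le_of_dvd h0 hk.k1) (hits p Y _).1

theorem out_eq {Y : ℕ} (hY : Y < p) (hY1 : 1 ≤ Y) (j : ℕ) :
    ((outp (last p Y j) : ℕ) : ZMod p) =
      (((∏ l ∈ (range (Y ^ 3 + 1)).filter Nat.Prime, corb p p.size Y l) *
        (∏ i ∈ range Y, cort p i ^ (j ^ i)) ^ (Ex p Y) : (ZMod p)ˣ) : ZMod p) := by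
  have h3 : 1 ≤ Y ^ 3 := Nat.one_le_pow _ _ hY1
  have e := prod_known hY (Y ^ 3 - 1)
  rw [show Y ^ 3 - 1 + 2 = Y ^ 3 + 1 by omega] at e
  unfold outp last
  simp only [sp, sY, sj, sm, sl, sx, sb, sg, sh, sa]
  rw [cor_md, Nat.cast_mul, e, cor_pw, cor_horner, Units.val_mul, Units.val_pow_eq_pow_val]
  congr 2
  rw [Units.coe_prod]
  apply prod_congr rfl
  intro i hi
  rw [Units.val_pow_eq_pow_val, cort_val hY (mem_range.1 hi)]

open Classical in
theorem out_order {Y : ℕ} (hY : Y < p) (hY1 : 1 ≤ Y) :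
    #{j ∈ range (Y ^ 3) | ¬ orderOf ((outp (last p Y j) : ℕ) : ZMod p) = Nat.card (Gam p Y)} ≤
      Y * p.size := by
  have hpp : p.Prime := hp.out
  have hp1 : p - 1 ≠ 0 := by have := hpp.two_le; omega
  have hfac : ∀ l : ℕ, (Nat.card (Gam p Y)).factorization l ≤ (p - 1).factorization l := by
    intro l
    exact (Nat.factorization_le_iff_dvd Nat.card_pos.ne' hp1).2 (card_Gam_dvd Y) l
  have h1 := main_alg (cort p) Y (Y ^ 3) (Gam p Y) (Gam_eq hY) (corb p p.size Y)
    (fun l hl _ => corb_order hY hl) (Ex p Y)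
    (fun l hl hlL => by
      have h2 := Ex_fac (p := p) hY1 hl
      rw [if_pos hlL] at h2
      refine (pow_dvd_pow l (hfac l)).trans ?_
      rw [← h2]
      exact Nat.ordProj_dvd _ _)
    (fun l hl hd => by
      by_contra hcon
      have h2 := Ex_fac (p := p) hY1 hl
      rw [if_neg hcon] at h2
      have h3 := hl.factorization_pos_of_dvd (Ex_pos Y).ne' hd
      omega)
  have h2 : #{l ∈ (Nat.card (Gam p Y)).primeFactors | Y ^ 3 < l} ≤ p.size := by
    refine (card_filter_le _ _).trans (card_primeFactors_le Nat.card_pos ?_)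
    refine lt_of_le_of_lt (Nat.le_of_dvd (by omega) (card_Gam_dvd Y)) ?_
    exact lt_of_le_of_lt (Nat.sub_le _ _) (Nat.lt_size_self p)
  refine le_trans (card_le_card ?_) (h1.trans (Nat.mul_le_mul (Nat.sub_le _ _) h2))
  intro j hj
  obtain ⟨hj1, hj2⟩ := mem_filter.1 hj
  refine mem_filter.2 ⟨hj1, fun hord => hj2 ?_⟩
  rw [out_eq hY hY1, orderOf_units]
  exact hord

end grp

end Pool.Agent.D0H57.SE
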