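import Pool.Agent.D0H57.SE.Grp
import Pool.Agent.D0H57.PR.Few

set_option autoImplicit false

/-!
# The index of the group generated by the numbers up to `2 ^ M`, and the exceptional primes
-/

namespace Pool.Agent.D0H57.SE

open Finset Pool.Agent.NPC Pool.Agent.H595R2.PR Pool.Agent.R562.PR Pool.Agent.D0H57.PR
open Pool.Agent.H386R2.Artin
open scoped Nat

/-- Chebyshev -/
theorem pi_nat : ∃ e : ℕ, ∀ M y : ℕ, 2 ^ e ≤ y → y ≤ 2 ^ M → y ≤ 2 * M * Nat.primeCounting y := by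
  obtain ⟨y₀, hy3, hy₀⟩ := siz_pi_lower
  refine ⟨y₀, fun M y h1 h2 => ?_⟩
  have hy : y₀ ≤ y := (Nat.lt_two_pow_self (n := y₀)).le.trans h1
  have h3 := hy₀ y hy
  have hy3' : (3 : ℝ) ≤ y := by exact_mod_cast hy3.trans hy
  have hlog : 0 < Real.log y := Real.log_pos (by linarith)
  have hlog2 : Real.log y ≤ M := by
    have h4 : (y : ℝ) ≤ 2 ^ M := by exact_mod_cast h2
    have h5 := Real.log_le_log (by linarith) h4
    rw [Real.log_pow] at h5
    have h6 : Real.log 2 ≤ 1 := by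
      have := Real.log_two_lt_d9
      linarith
    have h7 : (M : ℝ) * Real.log 2 ≤ M * 1 := by gcongr
    linarith
  rw [div_le_iff₀ (by positivity)] at h3
  have h8 : (y : ℝ) ≤ 2 * M * Nat.primeCounting y := by
    calc (y : ℝ) ≤ Nat.primeCounting y * (2 * Real.log y) := h3
      _ ≤ Nat.primeCounting y * (2 * M) := by gcongr
      _ = _ := by ring
  exact_mod_cast h8

theorem Gam_mono {p y z : ℕ} (h : y ≤ z) : Gam p y ≤ Gam p z := by
  unfold Gam
  refine Subgroup.closure_mono ?_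
  rintro u ⟨i, hi, hu⟩
  exact ⟨i, by omega, hu⟩

/-- the index of the group -/
theorem idx {e : ℕ} (he : ∀ M y : ℕ, 2 ^ e ≤ y → y ≤ 2 ^ M → y ≤ 2 * M * Nat.primeCounting y)
    {p M k : ℕ} [hp : Fact p.Prime] (hk : 1 ≤ k) (hM : 1 ≤ M) (h1 : p.size ≤ M * k)
    (h2 : e * k + 1 < p.size) : (Gam p (2 ^ M)).index ≤ (4 * M * k) ^ k := by
  have hpp : p.Prime := hp.out
  set n := p.size with hn
  have hpn : p < 2 ^ n := Nat.lt_size_self p
  have hpn' : 2 ^ (n - 1) ≤ p := Nat.lt_size.1 (by omega)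
  set y := Nat.findGreatest (fun y => y ^ k < p) p with hy
  have hyk : y ^ k < p := by
    have h0 : (0 : ℕ) ^ k < p := by rw [zero_pow (by omega)]; exact hpp.pos
    exact Nat.findGreatest_spec (P := fun y => y ^ k < p) (Nat.zero_le p) h0
  have hyk' : p ≤ (y + 1) ^ k := by
    by_contra hcon
    push Not at hcon
    have h3 : y + 1 ≤ (y + 1) ^ k := Nat.le_self_pow (by omega) _
    have h4 : y + 1 ≤ y := Nat.le_findGreatest (P := fun y => y ^ k < p) (by omega) hcon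
    omega
  have hyM : y < 2 ^ M := by
    have h3 : y ^ k < (2 ^ M) ^ k := by
      rw [← pow_mul]
      exact lt_of_lt_of_le (hyk.trans hpn) (Nat.pow_le_pow_right (by norm_num) h1)
    exact lt_of_pow_lt_pow_left₀ k (Nat.zero_le _) h3
  have hye : 2 ^ e ≤ y := by
    by_contra hcon
    push Not at hcon
    have h3 : (y + 1) ^ k ≤ (2 ^ e) ^ k := Nat.pow_le_pow_left hcon k
    rw [← pow_mul] at h3
    have h4 : 2 ^ (n - 1) ≤ 2 ^ (e * k) := hpn'.trans (hyk'.trans h3)
    have h5 := (Nat.pow_le_pow_iff_right (by norm_num : 1 < 2)).1 h4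
    omega
  have hy1 : 1 ≤ y := Nat.one_le_two_pow.trans hye
  have hyp : y < p := lt_of_le_of_lt (Nat.le_self_pow (by omega) _) hyk
  have hpi := he M y hye hyM.le
  have hcnt := card_Gam_ge (p := p) hyp hyk
  have hfac : k ! ≤ k ^ k := Nat.factorial_le_pow k
  set c := Nat.card (Gam p y) with hc
  have hc0 : 0 < c := Nat.card_pos
  have hmain : p ≤ (4 * M * k) ^ k * c := by
    calc p ≤ (y + 1) ^ k := hyk'
      _ ≤ (2 * y) ^ k := Nat.pow_le_pow_left (by omega) k
      _ ≤ (2 * (2 * M * Nat.primeCounting y)) ^ k :=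
          Nat.pow_le_pow_left (Nat.mul_le_mul_left 2 hpi) k
      _ = (4 * M) ^ k * (Nat.primeCounting y) ^ k := by
          rw [← mul_pow]
          congr 1
          ring
      _ ≤ (4 * M) ^ k * (k ! * c) := Nat.mul_le_mul_left _ hcnt
      _ ≤ (4 * M) ^ k * (k ^ k * c) := Nat.mul_le_mul_left _ (Nat.mul_le_mul_right _ hfac)
      _ = (4 * M * k) ^ k * c := by rw [mul_pow (4 * M) k k]; ring
  have h3 := Pool.Agent.TH668.PR.card_mul_index (Gam p y)
  have h4 : (Gam p y).index ≤ (4 * M * k) ^ k := by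
    by_contra hcon
    push Not at hcon
    have h5 : (4 * M * k) ^ k * c < (Gam p y).index * c := Nat.mul_lt_mul_of_pos_right hcon hc0
    rw [mul_comm (Gam p y).index c, h3] at h5
    omega
  have h5 : (Gam p (2 ^ M)).index ∣ (Gam p y).index := Subgroup.index_dvd_of_le (Gam_mono hyM.le)
  have h6 : 0 < (Gam p y).index := Nat.pos_of_ne_zero Subgroup.index_ne_zero_of_finite
  exact (Nat.le_of_dvd h6 h5).trans h4

open Classical in
/-- the exceptional primes with `i` digits -/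
theorem exc {e : ℕ} (he : ∀ M y : ℕ, 2 ^ e ≤ y → y ≤ 2 ^ M → y ≤ 2 * M * Nat.primeCounting y)
    {i M k : ℕ} (hM : 1 ≤ M) (heM : e ≤ M) (h1 : i ≤ M * k) (hi : 2 ≤ i) (hMi : M + 1 < i)
    (E : Finset ℕ)
    (hE : ∀ p ∈ E, p.Prime ∧ p.size = i ∧ Gam p (2 ^ M) ≠ ⊤) :
    #E ≤ 12 * (16 * M * k) ^ (2 * k) := by
  set y := 2 ^ M with hy
  have hk : 1 ≤ k := by
    rcases Nat.eq_zero_or_pos k with h | h
    · rw [h] at h1; omega
    · exact h
  have hpi := he M y (Nat.pow_le_pow_right (by norm_num) heM) le_rfl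
  have hcard : #(PP y) = Nat.primeCounting y := by
    rw [PP, Nat.primeCounting, Nat.primeCounting', Nat.count_eq_card_filter_range]
  rw [← hcard] at hpi
  have hy0 : 0 < y := Nat.pow_pos (by norm_num)
  have he0 : 0 < #(PP y) := by
    refine Nat.pos_of_ne_zero fun h => ?_
    rw [h] at hpi
    omega
  have he0' : (0 : ℝ) < (#(PP y) : ℝ) := by exact_mod_cast he0
  have hpow : (2 ^ i) ^ 2 ≤ y ^ (2 * k) := by
    rw [hy, ← pow_mul, ← pow_mul]
    refine Nat.pow_le_pow_right (by norm_num) ?_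
    calc i * 2 ≤ (M * k) * 2 := Nat.mul_le_mul_right 2 h1
      _ = M * (2 * k) := by ring
  have hB := badCount (PP y) y (2 ^ i) (2 * k) ((#(PP y) : ℝ) / 2) (fun q hq => by
      rw [PP, mem_filter, mem_range] at hq
      exact ⟨hq.2, by omega⟩) (by positivity) hpow
  set c : ℝ := (#(PP y) : ℝ) with hc
  set B : ℝ := (#{p ∈ PP (2 ^ i) | ¬ Good (PP y) (c / 2) p} : ℝ) with hBd
  have hEB : (#E : ℝ) ≤ B := by
    rw [hBd]
    have h2 : #E ≤ #{p ∈ PP (2 ^ i) | ¬ Good (PP y) (c / 2) p} := by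
      refine card_le_card fun p hp => ?_
      obtain ⟨h3, h4, h5⟩ := hE p hp
      have h6 : p < 2 ^ i := by
        rw [← h4]
        exact Nat.lt_size_self p
      have h7 : 2 ^ (i - 1) ≤ p := Nat.lt_size.1 (by omega)
      have h8 : y < p := by
        refine lt_of_lt_of_le ?_ h7
        rw [hy]
        exact Nat.pow_lt_pow_right (by norm_num) (by omega)
      rw [mem_filter]
      refine ⟨by rw [PP, mem_filter, mem_range]; exact ⟨by omega, h3⟩, ?_⟩
      exact FEW.not_good h3 h8 le_rfl h5 he0'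
    exact_mod_cast h2
  have hyc : (y : ℝ) ≤ 2 * M * c := by
    rw [hc]
    exact_mod_cast hpi
  have hfac : (((2 * k) ! : ℕ) : ℝ) ≤ (((2 * k : ℕ) : ℝ)) ^ (2 * k) := by
    exact_mod_cast Nat.factorial_le_pow (2 * k)
  have hB2 : B * ((c / 2) ^ 2) ^ (2 * k) ≤
      12 * (16 * M * k) ^ (2 * k) * ((c / 2) ^ 2) ^ (2 * k) := by
    calc B * ((c / 2) ^ 2) ^ (2 * k) = B * (c / 2) ^ (2 * (2 * k)) := by rw [← pow_mul]
      _ ≤ 12 * (y : ℝ) ^ (2 * k) * (((2 * k) ! : ℕ) : ℝ) * c ^ (2 * k) := hB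
      _ ≤ 12 * (2 * M * c) ^ (2 * k) * (((2 * k : ℕ) : ℝ)) ^ (2 * k) * c ^ (2 * k) := by
          gcongr
      _ = 12 * ((2 * M * c) * ((2 * k : ℕ) : ℝ) * c) ^ (2 * k) := by
          rw [mul_pow, mul_pow]; ring
      _ = 12 * ((16 * M * k) * (c / 2) ^ 2) ^ (2 * k) := by
          congr 2
          push_cast
          ring
      _ = _ := by rw [mul_pow (16 * (M : ℝ) * k)]; ring
  have hB3 : B ≤ 12 * (16 * M * k) ^ (2 * k) := le_of_mul_le_mul_right hB2 (by positivity)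
  have hfin : (#E : ℝ) ≤ ((12 * (16 * M * k) ^ (2 * k) : ℕ) : ℝ) := by
    push_cast
    linarith
  exact_mod_cast hfin

end Pool.Agent.D0H57.SE
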