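import Pool.Agent.D0H57.PR.Main

set_option autoImplicit false

/-!
# A loop program with two inputs

The machine: trial division by all numbers `l ≤ Y ^ 3`, for every prime factor of `p - 1` found the
best power among the numbers `x ≤ Y`, then Horner's rule with the seed `j`.
-/

namespace Pool.Agent.D0H57.SE

open Pool.Agent.NPC Pool.Agent.H595R2.PR Pool.Agent.R562.PR Pool.Agent.D0H57.PR

/-- `F p M j` is computed from `p`, `M` and `j` by a loop with at most `T p M` rounds, with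
polynomial-time body and with states of polynomial length -/
def LoopTime (T : ℕ → ℕ → ℕ) (F : ℕ → ℕ → ℕ → ℕ) : Prop :=
  ∃ (init step stop out : List Bool → List Bool) (K : ℕ),
    PolyTime init ∧ PolyTime step ∧ PolyTime stop ∧ PolyTime out ∧
    ∀ p M j : ℕ, ∃ t : ℕ, t ≤ T p M ∧
      (∀ s : ℕ, s ≤ t →
        (step^[s] (init (bits (p, M, j)))).length ≤ (p.size + j.size + K) ^ K ∧
        (stop (step^[s] (init (bits (p, M, j)))) = [true] ↔ s = t)) ∧
      out (step^[t] (init (bits (p, M, j)))) = bits (F p M j)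

theorem LoopTime.of_typed {σ : Type} [TEnc σ] [TDec σ] {T : ℕ → ℕ → ℕ} {F : ℕ → ℕ → ℕ → ℕ}
    (i : ℕ × ℕ × ℕ → σ) (f : σ → σ) (g : σ → Bool) (o : σ → ℕ) (hi : NPC.Poly i) (hf : NPC.Poly f)
    (hg : NPC.Poly g) (ho : NPC.Poly o) (K : ℕ)
    (h : ∀ p M j : ℕ, ∃ t : ℕ, t ≤ T p M ∧
      (∀ s : ℕ, s ≤ t → sz (f^[s] (i (p, M, j))) ≤ (p.size + j.size + K) ^ K ∧
        (g (f^[s] (i (p, M, j))) = true ↔ s = t)) ∧
      o (f^[t] (i (p, M, j))) = F p M j) : LoopTime T F := by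
  have h1 : NPC.Poly (fun x : List Bool => (unbits (ℕ × ℕ × ℕ) x).elim (i (0, 0, 0)) i) := by
    refine (NPC.Poly.optCases (o := fun x : List Bool => unbits (ℕ × ℕ × ℕ) x)
      (g := fun _ => i (0, 0, 0)) (h := fun _ s => i s) poly_unbits (NPC.Poly.const _)
      (hi.comp (NPC.Poly.snd NPC.Poly.id))).congr fun x => ?_
    cases unbits (ℕ × ℕ × ℕ) x <;> rfl
  have h2 : NPC.Poly (fun x : List Bool => (unbits σ x).elim (i (0, 0, 0)) f) := by
    refine (NPC.Poly.optCases (o := fun x : List Bool => unbits σ x) (g := fun _ => i (0, 0, 0))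
      (h := fun _ s => f s) poly_unbits (NPC.Poly.const _) (hf.comp (NPC.Poly.snd NPC.Poly.id))).congr
      fun x => ?_
    cases unbits σ x <;> rfl
  have h3 : NPC.Poly (fun x : List Bool => (unbits σ x).elim true g) := by
    refine (NPC.Poly.optCases (o := fun x : List Bool => unbits σ x) (g := fun _ => true)
      (h := fun _ s => g s) poly_unbits (NPC.Poly.const _) (hg.comp (NPC.Poly.snd NPC.Poly.id))).congr
      fun x => ?_
    cases unbits σ x <;> rfl
  have h4 : NPC.Poly (fun x : List Bool => (unbits σ x).elim 0 o) := by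
    refine (NPC.Poly.optCases (o := fun x : List Bool => unbits σ x) (g := fun _ => (0 : ℕ))
      (h := fun _ s => o s) poly_unbits (NPC.Poly.const _) (ho.comp (NPC.Poly.snd NPC.Poly.id))).congr
      fun x => ?_
    cases unbits σ x <;> rfl
  refine ⟨_, _, _, _, K, polyTime_bits h1, polyTime_bits h2, polyTime_of_poly h3,
    polyTime_bits h4, fun p M j => ?_⟩
  have hit : ∀ s : ℕ, (fun x => bits ((unbits σ x).elim (i (0, 0, 0)) f))^[s]
      (bits ((unbits (ℕ × ℕ × ℕ) (bits (p, M, j))).elim (i (0, 0, 0)) i)) =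
        bits (f^[s] (i (p, M, j))) := by
    intro s
    induction s with
    | zero => simp only [unbits_bits, Option.elim, Function.iterate_zero, id]
    | succ s ih =>
      rw [Function.iterate_succ_apply', ih, Function.iterate_succ_apply']
      simp only [unbits_bits, Option.elim]
  obtain ⟨t, ht, hs, ho'⟩ := h p M j
  refine ⟨t, ht, fun s hst => ?_, ?_⟩
  · rw [hit]
    refine ⟨?_, ?_⟩
    · rw [bits_length]
      exact (hs s hst).1
    · simp only [unbits_bits, Option.elim]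
      rw [← (hs s hst).2]
      simp
  · rw [hit]
    simp only [unbits_bits, Option.elim]
    rw [ho']

/-- the states `(p, Y, j, m, l, x, b, g, h, a)` -/
abbrev St : Type := ℕ × ℕ × ℕ × ℕ × ℕ × ℕ × ℕ × ℕ × ℕ × ℕ

abbrev sp (s : St) : ℕ := s.1
abbrev sY (s : St) : ℕ := s.2.1
abbrev sj (s : St) : ℕ := s.2.2.1
abbrev sm (s : St) : ℕ := s.2.2.2.1
abbrev sl (s : St) : ℕ := s.2.2.2.2.1
abbrev sx (s : St) : ℕ := s.2.2.2.2.2.1
abbrev sb (s : St) : ℕ := s.2.2.2.2.2.2.1
abbrev sg (s : St) : ℕ := s.2.2.2.2.2.2.2.1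
abbrev sh (s : St) : ℕ := s.2.2.2.2.2.2.2.2.1
abbrev sa (s : St) : ℕ := s.2.2.2.2.2.2.2.2.2

/-- the body of the loop -/
def stp (s : St) : St :=
  if sl s ≤ sY s ^ 3 then
    if sm s % sl s = 0 then
      if sx s ≤ sY s then
        (sp s, sY s, sj s, sm s, sl s, sx s + 1,
          if better (sp s) (sp s).size (sl s) (sb s)
              (pw (sp s) (sx s) (strip (sl s) (sp s).size (sp s - 1))) then
            pw (sp s) (sx s) (strip (sl s) (sp s).size (sp s - 1)) else sb s, sg s, sh s, sa s)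
      else (sp s, sY s, sj s, strip (sl s) (sp s).size (sm s), sl s + 1, 1, md (sp s) 1,
        md (sp s) (sg s * sb s), sh s, sa s)
    else (sp s, sY s, sj s, sm s, sl s + 1, 1, md (sp s) 1, sg s, sh s, sa s)
  else if sa s < sY s then
    (sp s, sY s, sj s, sm s, sl s, sx s, sb s, sg s,
      md (sp s) ((sY s - sa s) * pw (sp s) (sh s) (sj s)), sa s + 1)
  else s

/-- one step of the computation of `2 ^ M` -/
def dbl (p M y : ℕ) : ℕ := if y.size ≤ min M p.size then 2 * y else y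

/-- the number `2 ^ min M (size p)` -/
def pY (p M : ℕ) : ℕ := (dbl p M)^[p.size] 1

/-- the first state -/
def ini (q : ℕ × ℕ × ℕ) : St :=
  (q.1, pY q.1 q.2.1, q.2.2, max (q.1 - 1) 1, 2, 1, md q.1 1, md q.1 1, md q.1 1, 0)

/-- the test -/
def fin (s : St) : Bool := decide (sY s ^ 3 < sl s) && decide (sY s ≤ sa s)

/-- the output -/
def outp (s : St) : ℕ := md (sp s) (sg s * pw (sp s) (sh s) ((sp s - 1) / sm s))

section poly

theorem p1 : NPC.Poly (fun s : St => sp s) := NPC.Poly.fst NPC.Poly.id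
theorem q2 : NPC.Poly (fun s : St => s.2) := NPC.Poly.snd NPC.Poly.id
theorem p2 : NPC.Poly (fun s : St => sY s) := NPC.Poly.fst q2
theorem q3 : NPC.Poly (fun s : St => s.2.2) := NPC.Poly.snd q2
theorem p3 : NPC.Poly (fun s : St => sj s) := NPC.Poly.fst q3
theorem q4 : NPC.Poly (fun s : St => s.2.2.2) := NPC.Poly.snd q3
theorem p4 : NPC.Poly (fun s : St => sm s) := NPC.Poly.fst q4
theorem q5 : NPC.Poly (fun s : St => s.2.2.2.2) := NPC.Poly.snd q4
theorem p5 : NPC.Poly (fun s : St => sl s) := NPC.Poly.fst q5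
theorem q6 : NPC.Poly (fun s : St => s.2.2.2.2.2) := NPC.Poly.snd q5
theorem p6 : NPC.Poly (fun s : St => sx s) := NPC.Poly.fst q6
theorem q7 : NPC.Poly (fun s : St => s.2.2.2.2.2.2) := NPC.Poly.snd q6
theorem p7 : NPC.Poly (fun s : St => sb s) := NPC.Poly.fst q7
theorem q8 : NPC.Poly (fun s : St => s.2.2.2.2.2.2.2) := NPC.Poly.snd q7
theorem p8 : NPC.Poly (fun s : St => sg s) := NPC.Poly.fst q8
theorem q9 : NPC.Poly (fun s : St => s.2.2.2.2.2.2.2.2) := NPC.Poly.snd q8
theorem p9 : NPC.Poly (fun s : St => sh s) := NPC.Poly.fst q9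
theorem p10 : NPC.Poly (fun s : St => sa s) := NPC.Poly.snd q9

theorem poly_stp : NPC.Poly stp := by
  have hn : UPoly (fun s : St => (sp s).size) := NPC.H595POL.upoly_size.comp p1
  have hst : NPC.Poly (fun s : St => strip (sl s) (sp s).size (sp s - 1)) :=
    NPC.H595POL.poly_strip p5 hn (NPC.Poly.sub p1 (NPC.Poly.const 1))
  have hpw : NPC.Poly (fun s : St => pw (sp s) (sx s) (strip (sl s) (sp s).size (sp s - 1))) :=
    NPC.H595POL.poly_pw p1 p6 hst
  have hone : NPC.Poly (fun s : St => md (sp s) 1) := NPC.H595POL.poly_md p1 (NPC.Poly.const 1)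
  refine NPC.Poly.ite (NPC.Poly.decide_le p5 (poly_powc p2 3)) ?_ ?_
  · refine NPC.Poly.ite (NPC.Poly.decide_eq (NPC.Poly.mod p4 p5) (NPC.Poly.const 0)) ?_ ?_
    · refine NPC.Poly.ite (NPC.Poly.decide_le p6 p2) ?_ ?_
      · refine NPC.Poly.pair p1 (NPC.Poly.pair p2 (NPC.Poly.pair p3 (NPC.Poly.pair p4
          (NPC.Poly.pair p5 (NPC.Poly.pair (NPC.Poly.succ p6) (NPC.Poly.pair ?_ (NPC.Poly.pair p8
            (NPC.Poly.pair p9 p10))))))))
        exact NPC.Poly.ite (p := fun s : St => better (sp s) (sp s).size (sl s) (sb s)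
              (pw (sp s) (sx s) (strip (sl s) (sp s).size (sp s - 1))) = true)
          (NPC.Poly.decide_bool (NPC.H595POL.poly_better p1 hn p5 p7 hpw)) hpw p7
      · exact NPC.Poly.pair p1 (NPC.Poly.pair p2 (NPC.Poly.pair p3 (NPC.Poly.pair
          (NPC.H595POL.poly_strip p5 hn p4) (NPC.Poly.pair (NPC.Poly.succ p5) (NPC.Poly.pair
            (NPC.Poly.const 1) (NPC.Poly.pair hone (NPC.Poly.pair
              (NPC.H595POL.poly_md p1 (NPC.Poly.mul p8 p7)) (NPC.Poly.pair p9 p10))))))))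
    · exact NPC.Poly.pair p1 (NPC.Poly.pair p2 (NPC.Poly.pair p3 (NPC.Poly.pair
          p4 (NPC.Poly.pair (NPC.Poly.succ p5) (NPC.Poly.pair
            (NPC.Poly.const 1) (NPC.Poly.pair hone (NPC.Poly.pair
              p8 (NPC.Poly.pair p9 p10))))))))
  · refine NPC.Poly.ite (NPC.Poly.decide_lt p10 p2) ?_ NPC.Poly.id
    exact NPC.Poly.pair p1 (NPC.Poly.pair p2 (NPC.Poly.pair p3 (NPC.Poly.pair
          p4 (NPC.Poly.pair p5 (NPC.Poly.pair
            p6 (NPC.Poly.pair p7 (NPC.Poly.pair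
              p8 (NPC.Poly.pair (NPC.H595POL.poly_md p1 (NPC.Poly.mul (NPC.Poly.sub p2 p10)
                (NPC.H595POL.poly_pw p1 p9 p3))) (NPC.Poly.succ p10)))))))))

theorem poly_fin : NPC.Poly fin :=
  NPC.Poly.and (NPC.Poly.decide_lt (poly_powc p2 3) p5) (NPC.Poly.decide_le p2 p10)

theorem poly_outp : NPC.Poly outp :=
  NPC.H595POL.poly_md p1 (NPC.Poly.mul p8 (NPC.H595POL.poly_pw p1 p9
    (NPC.Poly.div (NPC.Poly.sub p1 (NPC.Poly.const 1)) p4)))

theorem dbl_le (p M y : ℕ) (hy : y ≤ 4 * p + 1) : dbl p M y ≤ 4 * p + 1 := by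
  unfold dbl
  split_ifs with h
  · have h1 : y.size ≤ p.size := by omega
    rcases Nat.eq_zero_or_pos p with h0 | h0
    · subst h0
      rw [Nat.size_zero] at h1
      have : y = 0 := Nat.size_eq_zero.1 (by omega)
      omega
    · have h2 : y < 2 ^ p.size := lt_of_lt_of_le (Nat.lt_size_self y)
        (Nat.pow_le_pow_right (by norm_num) h1)
      have hs : 1 ≤ p.size := Nat.size_pos.2 h0
      have h3 : 2 ^ (p.size - 1) ≤ p := Nat.lt_size.1 (by omega)
      have h4 : 2 ^ p.size = 2 * 2 ^ (p.size - 1) := by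
        rw [← pow_succ']
        congr 1
        omega
      omega
  · exact hy

theorem poly_pY : NPC.Poly (fun q : ℕ × ℕ × ℕ => pY q.1 q.2.1) := by
  refine NPC.H595POL.iterN (n := fun q : ℕ × ℕ × ℕ => q.1.size) (s := fun _ => 1)
    (F := fun q y => dbl q.1 q.2.1 y) (B := fun q => 4 * q.1 + 1)
    (NPC.H595POL.upoly_size.comp (NPC.Poly.fst NPC.Poly.id)) (NPC.Poly.const 1) ?_ ?_
    (fun q => by omega) (fun q y hy => dbl_le _ _ y hy)
  · have h1 : NPC.Poly (fun q : (ℕ × ℕ × ℕ) × ℕ => q.1.1) :=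
      NPC.Poly.fst (NPC.Poly.fst NPC.Poly.id)
    have h2 : NPC.Poly (fun q : (ℕ × ℕ × ℕ) × ℕ => q.1.2.1) :=
      NPC.Poly.fst (NPC.Poly.snd (NPC.Poly.fst NPC.Poly.id))
    have h3 : NPC.Poly (fun q : (ℕ × ℕ × ℕ) × ℕ => q.2) := NPC.Poly.snd NPC.Poly.id
    have s1 : NPC.Poly (fun q : (ℕ × ℕ × ℕ) × ℕ => q.1.1.size) :=
      (NPC.H595POL.upoly_size.comp h1).toPoly
    have s2 : NPC.Poly (fun q : (ℕ × ℕ × ℕ) × ℕ => q.2.size) :=
      (NPC.H595POL.upoly_size.comp h3).toPoly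
    exact NPC.Poly.ite (NPC.Poly.decide_le s2 (NPC.Poly.min h2 s1))
      (NPC.Poly.mul (NPC.Poly.const 2) h3) h3
  · exact NPC.Poly.add (NPC.Poly.mul (NPC.Poly.const 4) (NPC.Poly.fst NPC.Poly.id))
      (NPC.Poly.const 1)

theorem poly_ini : NPC.Poly ini := by
  have h1 : NPC.Poly (fun q : ℕ × ℕ × ℕ => q.1) := NPC.Poly.fst NPC.Poly.id
  have h2 : NPC.Poly (fun q : ℕ × ℕ × ℕ => q.2.2) := NPC.Poly.snd (NPC.Poly.snd NPC.Poly.id)
  have h3 : NPC.Poly (fun q : ℕ × ℕ × ℕ => md q.1 1) :=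
    NPC.H595POL.poly_md h1 (NPC.Poly.const 1)
  exact NPC.Poly.pair h1 (NPC.Poly.pair poly_pY (NPC.Poly.pair h2
    (NPC.Poly.pair (NPC.Poly.max (NPC.Poly.sub h1 (NPC.Poly.const 1)) (NPC.Poly.const 1))
      (NPC.Poly.pair (NPC.Poly.const 2)
      (NPC.Poly.pair (NPC.Poly.const 1) (NPC.Poly.pair h3 (NPC.Poly.pair h3 (NPC.Poly.pair h3
        (NPC.Poly.const 0)))))))))

end poly

/-- the computation of `2 ^ M` -/
theorem dbl_iter (p M : ℕ) : ∀ k : ℕ, (dbl p M)^[k] 1 = 2 ^ (min k (min M p.size)) := by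
  intro k
  induction k with
  | zero => simp
  | succ k ih =>
    rw [Function.iterate_succ_apply', ih]
    unfold dbl
    rw [Nat.size_pow]
    by_cases hk : k < min M p.size
    · rw [if_pos (by omega), ← pow_succ']
      congr 1
      omega
    · rw [if_neg (by omega)]
      congr 1
      omega

theorem pY_eq (p M : ℕ) : pY p M = 2 ^ (min M p.size) := by
  unfold pY
  rw [dbl_iter]
  congr 1
  omega

end Pool.Agent.D0H57.SE
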