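import Pool.Agent.D0H57.SE.Mach

set_option autoImplicit false

/-!
# The run of the loop
-/

namespace Pool.Agent.D0H57.SE

open Pool.Agent.NPC Pool.Agent.H595R2.PR Pool.Agent.R562.PR Pool.Agent.D0H57.PR

/-- the cofactor, the product of the selected powers and the number of prime factors found after the
numbers `2, …, k + 1` -/
def MS (p Y : ℕ) : ℕ → ℕ × ℕ × ℕ
  | 0 => (max (p - 1) 1, md p 1, 0)
  | k + 1 => if (MS p Y k).1 % (k + 2) = 0 then
      (strip (k + 2) p.size (MS p Y k).1, md p ((MS p Y k).2.1 * best p p.size Y (k + 2)),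
        (MS p Y k).2.2 + 1)
    else MS p Y k

theorem session {p Y j m l : ℕ} (hl : l ≤ Y ^ 3) (hm : m % l = 0) (g h a : ℕ) : ∀ k : ℕ, k ≤ Y →
    stp^[k] (p, Y, j, m, l, 1, md p 1, g, h, a) =
      (p, Y, j, m, l, k + 1,
        ((List.range k).map fun i => pw p (i + 1) (strip l p.size (p - 1))).foldl
          (fun b x => if better p p.size l b x then x else b) (md p 1), g, h, a) := by
  intro k
  induction k with
  | zero => intro _; rfl
  | succ k ih =>
    intro hk
    rw [Function.iterate_succ_apply', ih (by omega)]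
    unfold stp
    simp only [sp, sY, sj, sm, sl, sx, sb, sg, sh, sa]
    rw [if_pos hl, if_pos hm, if_pos hk, List.range_succ, List.map_append, List.foldl_append]
    rfl

theorem session_end {p Y j m l : ℕ} (hl : l ≤ Y ^ 3) (hm : m % l = 0) (g h a : ℕ) :
    stp^[Y + 1] (p, Y, j, m, l, 1, md p 1, g, h, a) =
      (p, Y, j, strip l p.size m, l + 1, 1, md p 1, md p (g * best p p.size Y l), h, a) := by
  rw [Function.iterate_succ_apply', session hl hm g h a Y le_rfl]
  unfold stp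
  simp only [sp, sY, sj, sm, sl, sx, sb, sg, sh, sa]
  rw [if_pos hl, if_pos hm, if_neg (by omega)]
  rfl

/-- the first state -/
def st0 (p Y j : ℕ) : St := (p, Y, j, max (p - 1) 1, 2, 1, md p 1, md p 1, md p 1, 0)

theorem run1 (p Y j : ℕ) : ∀ k : ℕ, k + 1 ≤ Y ^ 3 →
    stp^[k + Y * (MS p Y k).2.2] (st0 p Y j) =
      (p, Y, j, (MS p Y k).1, k + 2, 1, md p 1, (MS p Y k).2.1, md p 1, 0) := by
  intro k
  induction k with
  | zero => intro _; rfl
  | succ k ih =>
    intro hk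
    have h := ih (by omega)
    by_cases hm : (MS p Y k).1 % (k + 2) = 0
    · have e : MS p Y (k + 1) = (strip (k + 2) p.size (MS p Y k).1,
        md p ((MS p Y k).2.1 * best p p.size Y (k + 2)), (MS p Y k).2.2 + 1) := by
        rw [MS, if_pos hm]
      rw [e]
      simp only
      have e2 : k + 1 + Y * ((MS p Y k).2.2 + 1) = (Y + 1) + (k + Y * (MS p Y k).2.2) := by ring
      rw [e2, Function.iterate_add_apply, h, session_end (by omega) hm]
    · have e : MS p Y (k + 1) = MS p Y k := by rw [MS, if_neg hm]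
      rw [e]
      have e2 : k + 1 + Y * (MS p Y k).2.2 = 1 + (k + Y * (MS p Y k).2.2) := by ring
      rw [e2, Function.iterate_add_apply, h, Function.iterate_one]
      unfold stp
      simp only [sp, sY, sj, sm, sl, sx, sb, sg, sh, sa]
      rw [if_pos (by omega), if_neg hm]

theorem run2 (p Y j m l b g : ℕ) (x : ℕ) (hl : Y ^ 3 < l) : ∀ a : ℕ, a ≤ Y →
    stp^[a] (p, Y, j, m, l, x, b, g, md p 1, 0) =
      (p, Y, j, m, l, x, b, g,
        (List.range' (Y - a) a).foldr (fun i acc => md p ((i + 1) * pw p acc j)) (md p 1), a) := by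
  intro a
  induction a with
  | zero => intro _; rfl
  | succ a ih =>
    intro ha
    rw [Function.iterate_succ_apply', ih (by omega)]
    unfold stp
    simp only [sp, sY, sj, sm, sl, sx, sb, sg, sh, sa]
    rw [if_neg (by omega), if_pos (by omega : a < Y), List.range'_succ, List.foldr_cons]
    have e1 : Y - (a + 1) + 1 = Y - a := by omega
    rw [e1]

/-- the time of the last state -/
def tend (p Y : ℕ) : ℕ := Y + ((Y ^ 3 - 1) + Y * (MS p Y (Y ^ 3 - 1)).2.2)

/-- the last state -/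
def last (p Y j : ℕ) : St := (p, Y, j, (MS p Y (Y ^ 3 - 1)).1, Y ^ 3 + 1, 1, md p 1,
  (MS p Y (Y ^ 3 - 1)).2.1, horner p Y j, Y)

theorem run_end {p Y : ℕ} (hY : 1 ≤ Y) (j : ℕ) : stp^[tend p Y] (st0 p Y j) = last p Y j := by
  have h3 : 1 ≤ Y ^ 3 := Nat.one_le_pow _ _ hY
  unfold tend
  rw [Function.iterate_add_apply, run1 p Y j (Y ^ 3 - 1) (by omega),
    run2 _ _ _ _ _ _ _ _ (by omega) Y le_rfl]
  unfold last horner
  rw [Nat.sub_self, List.range_eq_range']
  have e : Y ^ 3 - 1 + 2 = Y ^ 3 + 1 := by omega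
  rw [e]

theorem fin_last (p Y j : ℕ) : fin (last p Y j) = true := by
  unfold fin last
  simp

theorem stp_fix {s : St} (h : fin s = true) : stp s = s := by
  unfold fin at h
  rw [Bool.and_eq_true, decide_eq_true_eq, decide_eq_true_eq] at h
  unfold stp
  rw [if_neg (by omega), if_neg (by omega)]

theorem iter_fix {s : St} (h : fin s = true) (k : ℕ) : stp^[k] s = s := by
  induction k with
  | zero => rfl
  | succ k ih => rw [Function.iterate_succ_apply', ih, stp_fix h]

/-- the invariant -/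
structure Inv (p Y j : ℕ) (s : St) : Prop where
  e1 : sp s = p
  e2 : sY s = Y
  e3 : sj s = j
  e4 : sm s ≤ max p 1
  e5 : sl s ≤ Y ^ 3 + 1
  e6 : sx s ≤ Y + 1
  e7 : sb s ≤ max p 1
  e8 : sg s ≤ max p 1
  e9 : sh s ≤ max p 1
  e10 : sa s ≤ Y

theorem inv_st0 {p Y : ℕ} (hY : 1 ≤ Y) (j : ℕ) : Inv p Y j (st0 p Y j) where
  e1 := rfl
  e2 := rfl
  e3 := rfl
  e4 := by unfold st0; simp only [sm]; omega
  e5 := by
    unfold st0
    simp only [sl]
    have h3 : 1 ≤ Y ^ 3 := Nat.one_le_pow _ _ hY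
    omega
  e6 := by unfold st0; simp only [sx]; omega
  e7 := NPC.H595POL.md_le _ _
  e8 := NPC.H595POL.md_le _ _
  e9 := NPC.H595POL.md_le _ _
  e10 := Nat.zero_le _

theorem inv_stp {p Y j : ℕ} {s : St} (h : Inv p Y j s) : Inv p Y j (stp s) := by
  obtain ⟨q, y, i, m, l, x, b, g, r, a⟩ := s
  obtain ⟨e1, e2, e3, e4, e5, e6, e7, e8, e9, e10⟩ := h
  simp only [sp, sY, sj, sm, sl, sx, sb, sg, sh, sa] at e1 e2 e3 e4 e5 e6 e7 e8 e9 e10
  subst e1 e2 e3
  unfold stp
  simp only [sp, sY, sj, sm, sl, sx, sb, sg, sh, sa]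
  by_cases h1 : l ≤ y ^ 3
  · rw [if_pos h1]
    by_cases h2 : m % l = 0
    · rw [if_pos h2]
      by_cases h3 : x ≤ y
      · rw [if_pos h3]
        refine ⟨rfl, rfl, rfl, e4, e5, ?_, ?_, e8, e9, e10⟩
        · simp only [sx]; omega
        · simp only [sb]
          split_ifs
          · exact NPC.H595POL.pw_le _ _ _
          · exact e7
      · rw [if_neg h3]
        refine ⟨rfl, rfl, rfl, (strip_le _ _ _).trans e4, ?_, ?_, NPC.H595POL.md_le _ _,
          NPC.H595POL.md_le _ _, e9, e10⟩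
        · simp only [sl]; omega
        · simp only [sx]; omega
    · rw [if_neg h2]
      refine ⟨rfl, rfl, rfl, e4, ?_, ?_, NPC.H595POL.md_le _ _, e8, e9, e10⟩
      · simp only [sl]; omega
      · simp only [sx]; omega
  · rw [if_neg h1]
    by_cases h2 : a < y
    · rw [if_pos h2]
      refine ⟨rfl, rfl, rfl, e4, e5, e6, e7, e8, NPC.H595POL.md_le _ _, ?_⟩
      simp only [sa]; omega
    · rw [if_neg h2]
      exact ⟨rfl, rfl, rfl, e4, e5, e6, e7, e8, e9, e10⟩

theorem inv_iter {p Y : ℕ} (hY : 1 ≤ Y) (j : ℕ) (k : ℕ) : Inv p Y j (stp^[k] (st0 p Y j)) := by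
  induction k with
  | zero => exact inv_st0 hY j
  | succ k ih => rw [Function.iterate_succ_apply']; exact inv_stp ih

/-- the length of the code of a state -/
theorem Inv.sz_le {p Y j : ℕ} {s : St} (h : Inv p Y j s) (hYp : Y ≤ 2 ^ p.size) :
    sz s ≤ (p.size + j.size + 300) ^ 300 := by
  obtain ⟨q, y, i, m, l, x, b, g, r, a⟩ := s
  obtain ⟨e1, e2, e3, e4, e5, e6, e7, e8, e9, e10⟩ := h
  simp only [sp, sY, sj, sm, sl, sx, sb, sg, sh, sa] at e1 e2 e3 e4 e5 e6 e7 e8 e9 e10
  subst e1 e2 e3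
  set n := q.size with hn
  have hq : q < 2 ^ n := Nat.lt_size_self q
  have h1n : 1 ≤ 2 ^ n := Nat.one_le_two_pow
  have key : ∀ z k : ℕ, z < 2 ^ k → sz z ≤ 4 * k + 1 := by
    intro z k hz
    exact (sz_nat_le z).trans (by have := Nat.size_le.2 hz; omega)
  have hsmall : ∀ z : ℕ, z ≤ max q 1 → sz z ≤ 4 * (n + 1) + 1 := by
    intro z hz
    refine key z (n + 1) ?_
    rw [pow_succ]
    omega
  have s1 : sz q ≤ 4 * (n + 1) + 1 := hsmall q (le_max_left _ _)
  have s2 : sz y ≤ 4 * (n + 1) + 1 := key y (n + 1) (by rw [pow_succ]; omega)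
  have s3 : sz i ≤ 4 * i.size + 1 := sz_nat_le i
  have s4 := hsmall m e4
  have s5 : sz l ≤ 4 * (3 * n + 2) + 1 := by
    refine key l _ ?_
    have h3 : y ^ 3 ≤ (2 ^ n) ^ 3 := Nat.pow_le_pow_left hYp 3
    rw [← pow_mul, mul_comm n 3] at h3
    have h4 : 1 ≤ 2 ^ (3 * n) := Nat.one_le_two_pow
    have h5 : 2 ^ (3 * n + 2) = 4 * 2 ^ (3 * n) := by rw [pow_add]; ring
    omega
  have s6 : sz x ≤ 4 * (n + 2) + 1 := key x (n + 2) (by
    have : 2 ^ (n + 2) = 4 * 2 ^ n := by rw [pow_add]; ring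
    omega)
  have s7 := hsmall b e7
  have s8 := hsmall g e8
  have s9 := hsmall r e9
  have s10 : sz a ≤ 4 * (n + 1) + 1 := key a (n + 1) (by rw [pow_succ]; omega)
  simp only [sz_pair]
  have htot : sz q + (sz y + (sz i + (sz m + (sz l + (sz x + (sz b + (sz g +
      (sz r + sz a + 1) + 1) + 1) + 1) + 1) + 1) + 1) + 1) + 1 ≤
      60 * n + 4 * i.size + 200 := by omega
  refine htot.trans ?_
  calc 60 * n + 4 * i.size + 200 ≤ (n + i.size + 300) * 300 := by
        have h0 : (n + i.size + 300) * 300 = 300 * n + 300 * i.size + 90000 := by ring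
        omega
    _ ≤ (n + i.size + 300) * (n + i.size + 300) := Nat.mul_le_mul_left _ (by omega)
    _ = (n + i.size + 300) ^ 2 := (sq _).symm
    _ ≤ (n + i.size + 300) ^ 300 := Nat.pow_le_pow_right (by omega) (by norm_num)

/-- the number of prime factors found -/
theorem hits (p Y : ℕ) : ∀ k : ℕ, 1 ≤ (MS p Y k).1 ∧
    2 ^ (MS p Y k).2.2 * (MS p Y k).1 ≤ max (p - 1) 1 := by
  intro k
  induction k with
  | zero =>
    unfold MS
    simp
  | succ k ih =>
    obtain ⟨h1, h2⟩ := ih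
    by_cases hm : (MS p Y k).1 % (k + 2) = 0
    · have e : MS p Y (k + 1) = (strip (k + 2) p.size (MS p Y k).1,
        md p ((MS p Y k).2.1 * best p p.size Y (k + 2)), (MS p Y k).2.2 + 1) := by
        rw [MS, if_pos hm]
      rw [e]
      simp only
      refine ⟨strip_pos h1 (by omega), ?_⟩
      have hm2 : 2 ≤ (MS p Y k).1 := by
        have := Nat.le_of_dvd h1 (Nat.dvd_of_mod_eq_zero hm)
        omega
      have hs : 1 ≤ p.size := by
        have h3 : (MS p Y k).1 ≤ max (p - 1) 1 := by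
          calc (MS p Y k).1 = 1 * (MS p Y k).1 := (one_mul _).symm
            _ ≤ 2 ^ (MS p Y k).2.2 * (MS p Y k).1 :=
                Nat.mul_le_mul_right _ Nat.one_le_two_pow
            _ ≤ _ := h2
        exact Nat.size_pos.2 (by omega)
      have h4 := strip_half (n := p.size) hs (by omega : 2 ≤ k + 2) hm
      calc 2 ^ ((MS p Y k).2.2 + 1) * strip (k + 2) p.size (MS p Y k).1
          = 2 ^ (MS p Y k).2.2 * (2 * strip (k + 2) p.size (MS p Y k).1) := by
            rw [pow_succ]; ring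
        _ ≤ 2 ^ (MS p Y k).2.2 * (MS p Y k).1 := Nat.mul_le_mul_left _ h4
        _ ≤ _ := h2
    · have e : MS p Y (k + 1) = MS p Y k := by rw [MS, if_neg hm]
      rw [e]
      exact ⟨h1, h2⟩

theorem hits_le (p Y k : ℕ) : (MS p Y k).2.2 ≤ p.size := by
  obtain ⟨h1, h2⟩ := hits p Y k
  have h3 : 2 ^ (MS p Y k).2.2 ≤ max (p - 1) 1 := by
    calc 2 ^ (MS p Y k).2.2 = 2 ^ (MS p Y k).2.2 * 1 := (mul_one _).symm
      _ ≤ 2 ^ (MS p Y k).2.2 * (MS p Y k).1 := Nat.mul_le_mul_left _ h1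
      _ ≤ _ := h2
  rcases Nat.lt_or_ge p 2 with hp | hp
  · have h4 : 2 ^ (MS p Y k).2.2 < 2 ^ 1 := by omega
    have h5 := (Nat.pow_lt_pow_iff_right (by norm_num)).1 h4
    omega
  · have h4 : 2 ^ (MS p Y k).2.2 < 2 ^ p.size :=
      lt_of_le_of_lt (h3.trans (by omega : max (p - 1) 1 ≤ p)) (Nat.lt_size_self p)
    exact ((Nat.pow_lt_pow_iff_right (by norm_num)).1 h4).le

theorem tend_le {p Y : ℕ} (hY : 1 ≤ Y) : tend p Y ≤ Y ^ 3 * (p.size + 2) - 1 := by
  unfold tend
  have h1 := hits_le p Y (Y ^ 3 - 1)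
  have h2 : Y ≤ Y ^ 3 := Nat.le_self_pow (by norm_num) Y
  have h3 : Y * (MS p Y (Y ^ 3 - 1)).2.2 ≤ Y ^ 3 * p.size := Nat.mul_le_mul h2 h1
  have h4 : 1 ≤ Y ^ 3 := Nat.one_le_pow _ _ hY
  have h5 : Y ^ 3 * (p.size + 2) = Y ^ 3 * p.size + 2 * Y ^ 3 := by ring
  omega

/-- the result of the loop -/
def FF (p M j : ℕ) : ℕ := outp (last p (pY p M) j)

theorem loop_gen : LoopTime (fun p M => 8 ^ M * (p.size + 2)) FF := by
  refine LoopTime.of_typed (σ := St) ini stp fin outp poly_ini poly_stp poly_fin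
    poly_outp 300 fun p M j => ?_
  have hY : 1 ≤ pY p M := by
    rw [pY_eq]
    exact Nat.one_le_two_pow
  have hY2 : pY p M ≤ 2 ^ p.size := by
    rw [pY_eq]
    exact Nat.pow_le_pow_right (by norm_num) (min_le_right _ _)
  have hY3 : pY p M ^ 3 ≤ 8 ^ M := by
    rw [pY_eq, ← pow_mul, mul_comm, pow_mul]
    exact Nat.pow_le_pow_right (by norm_num) (min_le_left _ _)
  have hini : ini (p, M, j) = st0 p (pY p M) j := rfl
  rw [hini]
  have hE := run_end (p := p) hY j
  have hex : ∃ t, fin (stp^[t] (st0 p (pY p M) j)) = true :=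
    ⟨_, by rw [hE]; exact fin_last _ _ _⟩
  classical
  set t := Nat.find hex with ht
  have hft : fin (stp^[t] (st0 p (pY p M) j)) = true := Nat.find_spec hex
  have htle : t ≤ tend p (pY p M) := Nat.find_min' hex (by rw [hE]; exact fin_last _ _ _)
  have hsame : stp^[tend p (pY p M)] (st0 p (pY p M) j) = stp^[t] (st0 p (pY p M) j) := by
    obtain ⟨k, hk⟩ := Nat.exists_eq_add_of_le htle
    rw [hk, Nat.add_comm, Function.iterate_add_apply, iter_fix hft]
  have hstop : ∀ s, s ≤ t → (fin (stp^[s] (st0 p (pY p M) j)) = true ↔ s = t) := by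
    intro s hs
    constructor
    · intro h
      by_contra hne
      exact Nat.find_min hex (by omega : s < t) h
    · rintro rfl
      exact hft
  refine ⟨t, ?_, fun s hs => ⟨(inv_iter hY j s).sz_le hY2, hstop s hs⟩, ?_⟩
  · refine (htle.trans (tend_le hY)).trans ((Nat.sub_le _ _).trans ?_)
    exact Nat.mul_le_mul_right _ hY3
  · rw [← hsame, hE]
    rfl

end Pool.Agent.D0H57.SE
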