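import Pool.Agent.D0H57.SE.Fin

set_option autoImplicit false

/-!
# Smooth numbers at all scales

At least `X / (8 k) ^ (2 k)` of the numbers up to `X` have no prime factor above `2 ^ M`, where `n` is
the number of binary digits of `X` and `k = n / M + 1`.
-/

namespace Pool.Agent.D0H57.SE

open Finset Filter Topology Pool.Agent.NPC Pool.Agent.H595R2.PR Pool.Agent.R562.PR
open Pool.Agent.D0H57.PR
open scoped Nat

theorem count_one {W : Finset ℕ} {z K X : ℕ} (hW : ∀ q ∈ W, q.Prime ∧ q ≤ z) (hz : z ^ K ≤ X)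
    (T : Finset ℕ)
    (hT : ∀ N : ℕ, 1 ≤ N → N ≤ X → (∀ l : ℕ, l.Prime → l ∣ N → l ≤ z) → N ∈ T) :
    #W ^ K ≤ K ! * #T := by
  classical
  let S : Finset (Fin K → ℕ) := Fintype.piFinset (fun _ => W)
  have hScard : #S = #W ^ K := by
    rw [Fintype.card_piFinset_const]
  have hSm : ∀ f ∈ S, ∀ i, (f i).Prime ∧ f i ≤ z := fun f hf i =>
    hW _ ((Fintype.mem_piFinset.1 hf) i)
  have hmaps : ∀ f ∈ S, ∏ i, f i ∈ T := by
    intro f hf
    refine hT _ (prod_pos fun i _ => (hSm f hf i).1.pos) ?_ ?_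
    · refine le_trans ?_ hz
      calc ∏ i, f i ≤ ∏ _i : Fin K, z := prod_le_prod' (fun i _ => (hSm f hf i).2)
        _ = z ^ K := by simp
    · intro l hl hd
      obtain ⟨i, _, hi⟩ := (Prime.dvd_finsetProd_iff hl.prime _).1 hd
      have := (Nat.prime_dvd_prime_iff_eq hl (hSm f hf i).1).1 hi
      rw [this]
      exact (hSm f hf i).2
  rw [← hScard]
  refine card_le_mul_card_image_of_maps_to hmaps K ! ?_
  intro b _
  rcases (S.filter (fun f => ∏ i, f i = b)).eq_empty_or_nonempty with h0 | ⟨f₀, hf₀⟩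
  · rw [h0]
    exact Nat.zero_le _
  · rw [mem_filter] at hf₀
    refine CNT_fibre _ f₀ ?_ (fun i => (hSm f₀ hf₀.1 i).1)
    intro f hf
    rw [mem_filter] at hf
    exact ⟨fun i => (hSm f hf.1 i).1, by rw [hf.2, hf₀.2]⟩

theorem count_two {W : Finset ℕ} {w z K X : ℕ} (hW : ∀ q ∈ W, q.Prime ∧ w < q ∧ q ≤ z)
    (hwz : w ≤ z) (hz : z ^ K ≤ X) (hX : X ≤ w ^ (K + 1)) (T : Finset ℕ)
    (hT : ∀ N : ℕ, 1 ≤ N → N ≤ X → (∀ l : ℕ, l.Prime → l ∣ N → l ≤ z) → N ∈ T) :
    (X : ℝ) / 2 * (∑ q ∈ W, (1 : ℝ) / q) ^ K ≤ (K ! : ℝ) * #T := by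
  classical
  let S : Finset (Fin K → ℕ) := Fintype.piFinset (fun _ => W)
  have hSm : ∀ f ∈ S, ∀ i, (f i).Prime ∧ w < f i ∧ f i ≤ z := fun f hf i =>
    hW _ ((Fintype.mem_piFinset.1 hf) i)
  have hpos : ∀ f ∈ S, 0 < ∏ i, f i := fun f hf => prod_pos fun i _ => (hSm f hf i).1.pos
  have hle : ∀ f ∈ S, ∏ i, f i ≤ X := by
    intro f hf
    refine le_trans ?_ hz
    calc ∏ i, f i ≤ ∏ _i : Fin K, z := prod_le_prod' (fun i _ => (hSm f hf i).2.2)
      _ = z ^ K := by simp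
  have hge : ∀ f ∈ S, w ^ K ≤ ∏ i, f i := by
    intro f hf
    calc w ^ K = ∏ _i : Fin K, w := by simp
      _ ≤ ∏ i, f i := prod_le_prod' (fun i _ => (hSm f hf i).2.1.le)
  have hdiv : ∀ f ∈ S, X / ∏ i, f i ≤ w := by
    intro f hf
    refine Nat.div_le_of_le_mul ?_
    calc X ≤ w ^ (K + 1) := hX
      _ = w ^ K * w := pow_succ _ _
      _ ≤ (∏ i, f i) * w := Nat.mul_le_mul_right _ (hge f hf)
  let P : Finset (Σ _ : Fin K → ℕ, ℕ) := S.sigma (fun f => Icc 1 (X / ∏ i, f i))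
  have hP : ∀ s ∈ P, s.1 ∈ S ∧ 1 ≤ s.2 ∧ s.2 ≤ X / ∏ i, s.1 i := by
    intro s hs
    have h1 := mem_sigma.1 hs
    have h2 := mem_Icc.1 h1.2
    exact ⟨h1.1, h2.1, h2.2⟩
  have hmaps : ∀ s ∈ P, (∏ i, s.1 i) * s.2 ∈ T := by
    intro s hs
    obtain ⟨h1, h2, h3⟩ := hP s hs
    refine hT _ (Nat.mul_pos (hpos _ h1) h2) ?_ ?_
    · exact (Nat.mul_le_mul_left _ h3).trans (Nat.mul_div_le _ _)
    · intro l hl hd
      rcases (hl.dvd_mul).1 hd with h4 | h4
      · obtain ⟨i, _, hi⟩ := (Prime.dvd_finsetProd_iff hl.prime _).1 h4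
        have := (Nat.prime_dvd_prime_iff_eq hl (hSm _ h1 i).1).1 hi
        rw [this]
        exact (hSm _ h1 i).2.2
      · exact (Nat.le_of_dvd h2 h4).trans (h3.trans ((hdiv _ h1).trans hwz))
  have hfib : #P ≤ K ! * #T := by
    refine card_le_mul_card_image_of_maps_to hmaps K ! ?_
    intro b _
    rcases (P.filter (fun s => (∏ i, s.1 i) * s.2 = b)).eq_empty_or_nonempty with h0 | ⟨s₀, hs₀⟩
    · rw [h0]
      exact Nat.zero_le _
    · rw [mem_filter] at hs₀
      obtain ⟨g1, g2, g3⟩ := hP s₀ hs₀.1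
      have hcop : ∀ f ∈ S, ∀ m : ℕ, 1 ≤ m → m ≤ w → Nat.Coprime (∏ i, f i) m := by
        intro f hf m hm1 hm2
        refine Nat.Coprime.prod_left fun i _ => ?_
        refine (Nat.Prime.coprime_iff_not_dvd (hSm f hf i).1).2 ?_
        exact Nat.not_dvd_of_pos_of_lt hm1 (lt_of_le_of_lt hm2 (hSm f hf i).2.1)
      have hprod : ∀ s ∈ P, (∏ i, s.1 i) * s.2 = b → ∏ i, s.1 i = ∏ i, s₀.1 i := by
        intro s hs hb
        obtain ⟨h1, h2, h3⟩ := hP s hs
        have h4 : (∏ i, s.1 i) * s.2 = (∏ i, s₀.1 i) * s₀.2 := by rw [hb, hs₀.2]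
        apply Nat.dvd_antisymm
        · refine Nat.Coprime.dvd_of_dvd_mul_right (hcop _ h1 _ g2 (g3.trans (hdiv _ g1))) ?_
          rw [← h4]
          exact dvd_mul_right _ _
        · refine Nat.Coprime.dvd_of_dvd_mul_right (hcop _ g1 _ h2 (h3.trans (hdiv _ h1))) ?_
          rw [h4]
          exact dvd_mul_right _ _
      have h5 : #(P.filter (fun s => (∏ i, s.1 i) * s.2 = b)) ≤
          #(S.filter fun f => ∏ i, f i = ∏ i, s₀.1 i) := by
        refine card_le_card_of_injOn (fun s => s.1) ?_ ?_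
        · intro s hs
          have hs' := mem_filter.1 (mem_coe.1 hs)
          exact mem_coe.2 (mem_filter.2 ⟨(hP s hs'.1).1, hprod s hs'.1 hs'.2⟩)
        · intro s hs t ht hst
          have hs' := mem_filter.1 (mem_coe.1 hs)
          have ht' := mem_filter.1 (mem_coe.1 ht)
          obtain ⟨f, m⟩ := s
          obtain ⟨f', m'⟩ := t
          simp only at hst hs' ht'
          subst hst
          have h6 : (∏ i, f i) * m = (∏ i, f i) * m' := by rw [hs'.2, ht'.2]
          have h7 := Nat.eq_of_mul_eq_mul_left (hpos _ (hP _ hs'.1).1) h6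
          rw [h7]
      refine h5.trans (CNT_fibre _ s₀.1 ?_ (fun i => (hSm _ g1 i).1))
      intro f hf
      rw [mem_filter] at hf
      exact ⟨fun i => (hSm f hf.1 i).1, hf.2⟩
  have hcardP : #P = ∑ f ∈ S, X / ∏ i, f i := by
    rw [card_sigma]
    refine sum_congr rfl fun f _ => ?_
    rw [Nat.card_Icc, Nat.add_sub_cancel]
  have hlow : (X : ℝ) / 2 * (∑ q ∈ W, (1 : ℝ) / q) ^ K ≤ ((∑ f ∈ S, X / ∏ i, f i : ℕ) : ℝ) := by
    have h1 : (∑ q ∈ W, (1 : ℝ) / q) ^ K = ∑ f ∈ S, ∏ i, (1 : ℝ) / (f i : ℝ) := by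
      have h2 := prod_univ_sum (fun _ : Fin K => W) (fun _ q => (1 : ℝ) / (q : ℝ))
      rw [← h2]
      simp
    rw [h1, mul_sum]
    push_cast
    refine sum_le_sum fun f hf => ?_
    have h2 : ∏ i, (1 : ℝ) / (f i : ℝ) = 1 / ((∏ i, f i : ℕ) : ℝ) := by
      rw [prod_div_distrib]
      simp
    rw [h2]
    set D : ℕ := ∏ i, f i with hD
    have hD0 : 0 < D := hpos f hf
    have hD1 : D ≤ X := hle f hf
    have h3 : 1 ≤ X / D := Nat.div_pos hD1 hD0
    have h4 : X < D * (X / D + 1) := Nat.lt_mul_div_succ X hD0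
    have h5 : X ≤ 2 * D * (X / D) := by
      have h6 : D * (X / D + 1) ≤ 2 * D * (X / D) := by
        have h7 : D * 1 ≤ D * (X / D) := Nat.mul_le_mul_left _ h3
        calc D * (X / D + 1) = D * (X / D) + D * 1 := by ring
          _ ≤ D * (X / D) + D * (X / D) := by omega
          _ = 2 * D * (X / D) := by ring
      omega
    have h6 : (X : ℝ) ≤ 2 * D * ((X / D : ℕ) : ℝ) := by exact_mod_cast h5
    have hD0' : (0 : ℝ) < D := by exact_mod_cast hD0
    have h8 : (X : ℝ) / 2 * (1 / (D : ℝ)) = X / (2 * D) := by field_simp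
    have h9 : (((X / D : ℕ) : ℕ) : ℝ) = ((X / ∏ i, f i : ℕ) : ℝ) := rfl
    rw [h8, div_le_iff₀ (by positivity)]
    calc (X : ℝ) ≤ 2 * D * ((X / D : ℕ) : ℝ) := h6
      _ = _ := by ring
  refine hlow.trans ?_
  rw [← hcardP]
  exact_mod_cast hfib

/-- primes in dyadic intervals -/
theorem dyadic : ∃ j₀ : ℕ, ∀ j : ℕ, j₀ ≤ j → (2 : ℝ) ^ j / (2 * ((j : ℝ) + 1)) ≤
    (Nat.primeCounting (2 ^ (j + 1)) : ℝ) - Nat.primeCounting (2 ^ j) := by
  have h1 := (tendsto_order.1 Pool.Agent.Cov.PNT.pi_tendsto).1 (9 / 10) (by norm_num)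
  have h2 := (tendsto_order.1 Pool.Agent.Cov.PNT.pi_tendsto).2 (11 / 10) (by norm_num)
  have h3 := (tendsto_natCast_atTop_atTop (R := ℝ)).eventually (h1.and h2)
  obtain ⟨y₀, h4⟩ := eventually_atTop.1 h3
  refine ⟨max y₀ 11, fun j hj => ?_⟩
  have hj1 : y₀ ≤ j := le_trans (le_max_left _ _) hj
  have hj2 : 11 ≤ j := le_trans (le_max_right _ _) hj
  have hy1 : y₀ ≤ 2 ^ j := hj1.trans (Nat.lt_two_pow_self (n := j)).le
  have hy2 : y₀ ≤ 2 ^ (j + 1) := hy1.trans (Nat.pow_le_pow_right (by norm_num) (by omega))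
  have a1 := (h4 (2 ^ (j + 1)) hy2).1
  have a2 := (h4 (2 ^ j) hy1).2
  simp only [Nat.floor_natCast] at a1 a2
  have hjr : (11 : ℝ) ≤ j := by exact_mod_cast hj2
  have hl2 : 0 < Real.log 2 := Real.log_pos (by norm_num)
  have hl2' : Real.log 2 < 0.7 := by
    have := Real.log_two_lt_d9
    linarith
  push_cast at a1 a2
  rw [Real.log_pow, lt_div_iff₀ (by positivity)] at a1
  rw [Real.log_pow, div_lt_iff₀ (by positivity)] at a2
  push_cast at a1
  set A : ℝ := (Nat.primeCounting (2 ^ (j + 1)) : ℝ) with hA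
  set B : ℝ := (Nat.primeCounting (2 ^ j) : ℝ) with hB
  have hB0 : 0 ≤ B := Nat.cast_nonneg _
  have hp : (0 : ℝ) < 2 ^ j := by positivity
  have hps : (2 : ℝ) ^ (j + 1) = 2 * 2 ^ j := by rw [pow_succ]; ring
  rw [hps] at a1
  -- B * ((j+1) log 2) ≤ 1.2 * 2^j
  have b1 : B * (((j : ℝ) + 1) * Real.log 2) ≤ 12 / 10 * 2 ^ j := by
    have c1 : (j : ℝ) + 1 ≤ 12 / 11 * j := by linarith
    calc B * (((j : ℝ) + 1) * Real.log 2) ≤ B * ((12 / 11 * j) * Real.log 2) := by gcongr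
      _ = 12 / 11 * (B * ((j : ℝ) * Real.log 2)) := by ring
      _ ≤ 12 / 11 * (11 / 10 * 2 ^ j) := by
          apply mul_le_mul_of_nonneg_left a2.le (by norm_num)
      _ = _ := by ring
  have b2 : 6 / 10 * (2 : ℝ) ^ j ≤ (A - B) * (((j : ℝ) + 1) * Real.log 2) := by
    have : (A - B) * (((j : ℝ) + 1) * Real.log 2) =
      A * (((j : ℝ) + 1) * Real.log 2) - B * (((j : ℝ) + 1) * Real.log 2) := by ring
    rw [this]
    linarith
  have hAB : 0 ≤ A - B := by
    by_contra hcon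
    push Not at hcon
    have : (A - B) * (((j : ℝ) + 1) * Real.log 2) < 0 :=
      mul_neg_of_neg_of_pos hcon (by positivity)
    linarith
  rw [div_le_iff₀ (by positivity)]
  have b3 : (A - B) * (((j : ℝ) + 1) * Real.log 2) ≤ (A - B) * (((j : ℝ) + 1) * 0.7) := by
    gcongr
  nlinarith

/-- the primes in `(2 ^ a, 2 ^ b]` -/
def Win (a b : ℕ) : Finset ℕ := (range (2 ^ b + 1)).filter (fun q => q.Prime ∧ 2 ^ a < q)

theorem win_sum {j₀ : ℕ} (hj₀ : ∀ j : ℕ, j₀ ≤ j → (2 : ℝ) ^ j / (2 * ((j : ℝ) + 1)) ≤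
    (Nat.primeCounting (2 ^ (j + 1)) : ℝ) - Nat.primeCounting (2 ^ j)) {a B : ℕ} (ha : j₀ ≤ a)
    (hB : 1 ≤ B) : ∀ b : ℕ, a ≤ b → b ≤ B →
    ((b : ℝ) - a) / (4 * B) ≤ ∑ q ∈ Win a b, (1 : ℝ) / q := by
  classical
  intro b hab
  induction b, hab using Nat.le_induction with
  | base =>
    intro _
    rw [sub_self, zero_div]
    exact sum_nonneg fun _ _ => by positivity
  | succ b hab ih =>
    intro hbB
    have h1 := ih (by omega)
    have hdis : Disjoint (Win a b) (Win b (b + 1)) := by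
      rw [disjoint_left]
      intro q hq hq'
      unfold Win at hq hq'
      rw [mem_filter, mem_range] at hq hq'
      omega
    have hsub : Win a b ∪ Win b (b + 1) ⊆ Win a (b + 1) := by
      intro q hq
      rw [mem_union] at hq
      unfold Win at hq ⊢
      rw [mem_filter, mem_range] at hq ⊢
      rw [mem_filter, mem_range] at hq
      have h2 : 2 ^ a ≤ 2 ^ b := Nat.pow_le_pow_right (by norm_num) hab
      have h3 : 2 ^ b ≤ 2 ^ (b + 1) := Nat.pow_le_pow_right (by norm_num) (by omega)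
      rcases hq with ⟨h4, h5, h6⟩ | ⟨h4, h5, h6⟩
      · exact ⟨by omega, h5, h6⟩
      · exact ⟨h4, h5, by omega⟩
    have h2 : ∑ q ∈ Win a b, (1 : ℝ) / q + ∑ q ∈ Win b (b + 1), (1 : ℝ) / q ≤
        ∑ q ∈ Win a (b + 1), (1 : ℝ) / q := by
      rw [← sum_union hdis]
      exact sum_le_sum_of_subset_of_nonneg hsub fun _ _ _ => by positivity
    have hcard : (Nat.primeCounting (2 ^ (b + 1)) : ℝ) - Nat.primeCounting (2 ^ b) =
        #(Win b (b + 1)) := by
      have h3 : Nat.primeCounting (2 ^ (b + 1)) = #(Win b (b + 1)) + Nat.primeCounting (2 ^ b) := by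
        have e1 : ∀ m : ℕ, Nat.primeCounting m = #((range (m + 1)).filter Nat.Prime) := by
          intro m
          rw [Nat.primeCounting, Nat.primeCounting', Nat.count_eq_card_filter_range]
        rw [e1, e1, ← card_union_of_disjoint]
        · congr 1
          ext q
          unfold Win
          rw [mem_union, mem_filter, mem_filter, mem_filter, mem_range, mem_range]
          have h3 : 2 ^ b ≤ 2 ^ (b + 1) := Nat.pow_le_pow_right (by norm_num) (by omega)
          constructor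
          · rintro ⟨h4, h5⟩
            by_cases h6 : 2 ^ b < q
            · exact Or.inl ⟨h4, h5, h6⟩
            · exact Or.inr ⟨by omega, h5⟩
          · rintro (⟨h4, h5, h6⟩ | ⟨h4, h5⟩)
            · exact ⟨h4, h5⟩
            · exact ⟨by omega, h5⟩
        · rw [disjoint_left]
          intro q hq hq'
          unfold Win at hq
          rw [mem_filter, mem_range] at hq hq'
          omega
      rw [h3]
      push_cast
      ring
    have h3 := hj₀ b (by omega)
    rw [hcard] at h3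
    have h4 : (#(Win b (b + 1)) : ℝ) * (1 / 2 ^ (b + 1)) ≤ ∑ q ∈ Win b (b + 1), (1 : ℝ) / q := by
      rw [← nsmul_eq_mul]
      refine card_nsmul_le_sum _ _ _ fun q hq => ?_
      unfold Win at hq
      rw [mem_filter, mem_range] at hq
      have h5 : (q : ℝ) ≤ 2 ^ (b + 1) := by exact_mod_cast (by omega : q ≤ 2 ^ (b + 1))
      have h6 : (0 : ℝ) < q := by exact_mod_cast hq.2.1.pos
      exact one_div_le_one_div_of_le h6 h5
    have hb0 : (0 : ℝ) < (b : ℝ) + 1 := by positivity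
    have hB0 : (0 : ℝ) < B := by exact_mod_cast hB
    have h5 : (1 : ℝ) / (4 * B) ≤ (#(Win b (b + 1)) : ℝ) * (1 / 2 ^ (b + 1)) := by
      have h6 : (1 : ℝ) / (4 * B) ≤ 1 / (4 * ((b : ℝ) + 1)) := by
        have : (b : ℝ) + 1 ≤ B := by exact_mod_cast hbB
        apply one_div_le_one_div_of_le (by positivity)
        linarith
      have h7 : (1 : ℝ) / (4 * ((b : ℝ) + 1)) =
          (2 : ℝ) ^ b / (2 * ((b : ℝ) + 1)) * (1 / 2 ^ (b + 1)) := by
        rw [pow_succ]
        field_simp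
        ring
      rw [h7] at h6
      refine h6.trans ?_
      gcongr
    have h6 : (((b + 1 : ℕ) : ℝ) - a) / (4 * B) = ((b : ℝ) - a) / (4 * B) + 1 / (4 * B) := by
      push_cast
      ring
    rw [h6]
    linarith

/-- Smooth numbers at all scales. -/
theorem smooth_all : ∃ C : ℕ, ∀ n M X : ℕ, C ≤ M → 4 * M ≤ n → 2 ^ (n - 1) ≤ X → X < 2 ^ n →
    ∀ T : Finset ℕ, (∀ N : ℕ, 1 ≤ N → N ≤ X → (∀ l : ℕ, l.Prime → l ∣ N → l ≤ 2 ^ M) → N ∈ T) →
      X ≤ (8 * (n / M + 1)) ^ (2 * (n / M + 1)) * #T := by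
  obtain ⟨e, he⟩ := pi_nat
  obtain ⟨j₀, hj₀⟩ := dyadic
  refine ⟨2 * e + 4 * j₀ + 4, fun n M X hM hn hX1 hX2 T hT => ?_⟩
  obtain ⟨k1, k2⟩ := k_spec (n := n) (M := M) (by omega)
  have hK1 : 1 ≤ n / M + 1 := Nat.succ_pos _
  set K := n / M + 1 with hK
  set m := (n - 1) / K with hm
  have m1 : m * K ≤ n - 1 := Nat.div_mul_le_self _ _
  have m2 : n - 1 < K * (m + 1) := Nat.lt_mul_div_succ _ hK1
  have m3 : M / 2 ≤ m := by
    rw [hm, Nat.le_div_iff_mul_le hK1]
    have h1 : 2 * (M / 2) * K ≤ M * K := Nat.mul_le_mul_right _ (by omega)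
    have h2 : 2 * (M / 2) * K = 2 * (M / 2 * K) := by ring
    omega
  have m4 : m ≤ M := by
    have h1 : m * K < M * K := by omega
    exact (Nat.lt_of_mul_lt_mul_right h1).le
  have hm1 : 1 ≤ m := by omega
  have hz : (2 ^ m) ^ K ≤ X := by
    rw [← pow_mul]
    exact (Nat.pow_le_pow_right (by norm_num) m1).trans hX1
  have hT' : ∀ N : ℕ, 1 ≤ N → N ≤ X → (∀ l : ℕ, l.Prime → l ∣ N → l ≤ 2 ^ m) → N ∈ T := by
    intro N h1 h2 h3
    exact hT N h1 h2 fun l hl hd => (h3 l hl hd).trans (Nat.pow_le_pow_right (by norm_num) m4)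
  have hfac : K ! ≤ K ^ K := Nat.factorial_le_pow K
  have hgoal : (8 * K) ^ (2 * K) = (64 * (K * K)) ^ K := by
    rw [pow_mul]
    congr 1
    ring
  rw [hgoal]
  rcases Nat.lt_or_ge m (4 * K) with hlt | hge
  · -- products of `K` primes
    have hpi := he m (2 ^ m) (Nat.pow_le_pow_right (by norm_num) (by omega)) le_rfl
    have hc := count_one (W := (range (2 ^ m + 1)).filter Nat.Prime) (z := 2 ^ m) (K := K) (X := X)
      (fun q hq => by
        rw [mem_filter, mem_range] at hq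
        exact ⟨hq.2, by omega⟩) hz T hT'
    have hcard : #((range (2 ^ m + 1)).filter Nat.Prime) = Nat.primeCounting (2 ^ m) := by
      rw [Nat.primeCounting, Nat.primeCounting', Nat.count_eq_card_filter_range]
    rw [hcard] at hc
    calc X ≤ 2 ^ n := hX2.le
      _ ≤ 2 ^ (K * (m + 1)) := Nat.pow_le_pow_right (by norm_num) (by omega)
      _ = (2 * 2 ^ m) ^ K := by
          rw [← pow_succ', ← pow_mul, mul_comm]
      _ ≤ (2 * (2 * m * Nat.primeCounting (2 ^ m))) ^ K :=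
          Nat.pow_le_pow_left (Nat.mul_le_mul_left _ hpi) _
      _ = (4 * m) ^ K * (Nat.primeCounting (2 ^ m)) ^ K := by
          rw [← mul_pow]
          congr 1
          ring
      _ ≤ (4 * m) ^ K * (K ! * #T) := Nat.mul_le_mul_left _ hc
      _ ≤ (4 * m) ^ K * (K ^ K * #T) := Nat.mul_le_mul_left _ (Nat.mul_le_mul_right _ hfac)
      _ = (4 * m * K) ^ K * #T := by rw [mul_pow (4 * m) K K]; ring
      _ ≤ (64 * (K * K)) ^ K * #T := by
          refine Nat.mul_le_mul_right _ (Nat.pow_le_pow_left ?_ _)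
          calc 4 * m * K ≤ 4 * (4 * K) * K :=
                Nat.mul_le_mul_right _ (Nat.mul_le_mul_left _ hlt.le)
            _ = 16 * (K * K) := by ring
            _ ≤ 64 * (K * K) := Nat.mul_le_mul_right _ (by norm_num)
  · -- primes in a window and a cofactor
    set D := m / (4 * K) with hD
    have d1 : D * (4 * K) ≤ m := Nat.div_mul_le_self _ _
    have d2 : m < 4 * K * (D + 1) := Nat.lt_mul_div_succ _ (by omega)
    have d3 : 1 ≤ D := Nat.div_pos hge (by omega)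
    have d4 : D * (4 * K) = 4 * (D * K) := by ring
    have d5 : D ≤ D * K := Nat.le_mul_of_pos_right _ hK1
    have d6 : K ≤ D * K := Nat.le_mul_of_pos_left _ d3
    have hwin := win_sum hj₀ (a := m - D) (B := m) (by omega) hm1 m (by omega) le_rfl
    have hexp : n ≤ (m - D) * (K + 1) := by
      have h1 : (m - D) * (K + 1) + D * (K + 1) = m * (K + 1) := by
        rw [← Nat.add_mul, Nat.sub_add_cancel (by omega)]
      have h2 : D * (K + 1) = D * K + D := by ring
      have h3 : m * (K + 1) = m * K + m := by ring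
      have h4 : K * (m + 1) = m * K + K := by ring
      omega
    have hX3 : X ≤ (2 ^ (m - D)) ^ (K + 1) := by
      rw [← pow_mul]
      exact hX2.le.trans (Nat.pow_le_pow_right (by norm_num) hexp)
    have hc := count_two (W := Win (m - D) m) (w := 2 ^ (m - D)) (z := 2 ^ m) (K := K) (X := X)
      (fun q hq => by
        unfold Win at hq
        rw [mem_filter, mem_range] at hq
        exact ⟨hq.2.1, hq.2.2, by omega⟩) (Nat.pow_le_pow_right (by norm_num) (by omega)) hz hX3 T hT'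
    have hK0 : (0 : ℝ) < K := by exact_mod_cast hK1
    have hm0 : (0 : ℝ) < m := by exact_mod_cast hm1
    have hs : (1 : ℝ) / (32 * K) ≤ ∑ q ∈ Win (m - D) m, (1 : ℝ) / q := by
      refine le_trans ?_ hwin
      have h1 : ((m - D : ℕ) : ℝ) = (m : ℝ) - D := by
        rw [Nat.cast_sub (by omega)]
      rw [h1, div_le_div_iff₀ (by positivity) (by positivity)]
      have h2 : m ≤ 8 * (D * K) := by
        have h3 : 4 * K * (D + 1) = 4 * (D * K) + 4 * K := by ring
        omega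
      have h3 : (m : ℝ) ≤ 8 * (D * K) := by exact_mod_cast h2
      nlinarith
    have h1 : (X : ℝ) / 2 * (1 / (32 * K)) ^ K ≤ (K : ℝ) ^ K * #T := by
      calc (X : ℝ) / 2 * (1 / (32 * K)) ^ K ≤
          (X : ℝ) / 2 * (∑ q ∈ Win (m - D) m, (1 : ℝ) / q) ^ K := by gcongr
        _ ≤ (K ! : ℝ) * #T := hc
        _ ≤ (K : ℝ) ^ K * #T := by
            have : ((K ! : ℕ) : ℝ) ≤ (K : ℝ) ^ K := by exact_mod_cast hfac
            gcongr
    have h2 : (X : ℝ) ≤ 2 * (32 * K * K) ^ K * #T := by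
      have h3 : ((32 : ℝ) * K) ^ K * (1 / (32 * K)) ^ K = 1 := by
        rw [← mul_pow]
        have : (32 : ℝ) * K * (1 / (32 * K)) = 1 := by field_simp
        rw [this, one_pow]
      calc (X : ℝ) = 2 * ((32 * (K : ℝ)) ^ K * ((X : ℝ) / 2 * (1 / (32 * K)) ^ K)) := by
            have : 2 * ((32 * (K : ℝ)) ^ K * ((X : ℝ) / 2 * (1 / (32 * K)) ^ K)) =
              X * ((32 * (K : ℝ)) ^ K * (1 / (32 * K)) ^ K) := by ring
            rw [this, h3, mul_one]
        _ ≤ 2 * ((32 * (K : ℝ)) ^ K * ((K : ℝ) ^ K * #T)) := by gcongr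
        _ = 2 * (32 * K * K) ^ K * #T := by rw [mul_pow (32 * (K : ℝ))]; ring
    have h3 : X ≤ 2 * (32 * K * K) ^ K * #T := by exact_mod_cast h2
    refine h3.trans (Nat.mul_le_mul_right _ ?_)
    calc 2 * (32 * K * K) ^ K ≤ 2 ^ K * (32 * K * K) ^ K :=
          Nat.mul_le_mul_right _ (Nat.le_self_pow (by omega) 2)
      _ = (64 * (K * K)) ^ K := by
          rw [← mul_pow]
          congr 1
          ring

end Pool.Agent.D0H57.SE
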