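import Pool.Agent.D0H57.SE.Smo

set_option autoImplicit false

/-!
# The index and the exceptional primes at all scales
-/

namespace Pool.Agent.D0H57.SE

open Finset Filter Topology Pool.Agent.NPC Pool.Agent.H595R2.PR Pool.Agent.R562.PR
open Pool.Agent.D0H57.PR

/-- smooth numbers are frequent -/
def Smooth (C : ℕ) : Prop := ∀ n M X : ℕ, C ≤ M → 4 * M ≤ n → 2 ^ (n - 1) ≤ X → X < 2 ^ n →
    ∀ T : Finset ℕ, (∀ N : ℕ, 1 ≤ N → N ≤ X → (∀ l : ℕ, l.Prime → l ∣ N → l ≤ 2 ^ M) → N ∈ T) →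
      X ≤ (8 * (n / M + 1)) ^ (2 * (n / M + 1)) * #T

/-- the index of the group -/
theorem idx2 {C : ℕ} (hC : Smooth C) {p M : ℕ} [hp : Fact p.Prime] (h1 : C ≤ M) (hM : 1 ≤ M)
    (h4 : 4 * M ≤ p.size) :
    (Gam p (2 ^ M)).index ≤ (8 * (p.size / M + 1)) ^ (2 * (p.size / M + 1)) := by
  classical
  have hpp : p.Prime := hp.out
  set n := p.size with hn
  have hpn : p < 2 ^ n := Nat.lt_size_self p
  have hpn' : 2 ^ (n - 1) ≤ p := Nat.lt_size.1 (by omega)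
  have hne : 2 ^ (n - 1) ≠ p := by
    intro h
    have h2 : 2 ∣ p := by
      rw [← h]
      exact dvd_pow_self 2 (by omega)
    have h3 := (Nat.prime_dvd_prime_iff_eq Nat.prime_two hpp).1 h2
    rw [← h3] at h
    have h5 : 2 ^ 2 ≤ 2 ^ (n - 1) := Nat.pow_le_pow_right (by norm_num) (by omega)
    omega
  have hlt : 2 ^ M < p := by
    refine lt_of_lt_of_le ?_ hpn'
    exact Nat.pow_lt_pow_right (by norm_num) (by omega)
  set Γ := Gam p (2 ^ M) with hΓ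
  let G : Finset (ZMod p)ˣ := (Set.toFinite ((Γ : Set (ZMod p)ˣ))).toFinset
  have hG : #G = Nat.card Γ := by
    rw [← Set.ncard_eq_toFinset_card]
    rfl
  let T : Finset ℕ := Finset.image (fun u : (ZMod p)ˣ => (u : ZMod p).val) G
  have hT : #T ≤ Nat.card Γ := by
    rw [← hG]
    exact card_image_le
  have h := hC n M (p - 1) h1 h4 (by omega) (by omega) T (by
    intro N hN1 hN2 hN3
    obtain ⟨u, hu1, hu2⟩ := smooth_mem hlt N (by omega) hN3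
    refine mem_image.2 ⟨u, ?_, ?_⟩
    · rw [Set.Finite.mem_toFinset]
      exact hu2
    · rw [hu1, ZMod.val_natCast]
      exact Nat.mod_eq_of_lt (by omega))
  have hcard := Pool.Agent.TH668.PR.card_mul_index Γ
  have hc0 : 0 < Nat.card Γ := Nat.card_pos
  by_contra hcon
  push Not at hcon
  have h5 := Nat.mul_lt_mul_of_pos_right hcon hc0
  rw [mul_comm Γ.index, hcard] at h5
  have h6 := h.trans (Nat.mul_le_mul_left _ hT)
  omega

open Classical in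
/-- the exceptional primes -/
theorem exc2 {C : ℕ} (hC : Smooth C) {i M : ℕ} (h1 : C ≤ M) (hM : 1 ≤ M) (h4 : 4 * M ≤ i)
    (E : Finset ℕ) (hE : ∀ p ∈ E, p.Prime ∧ p < 2 ^ i ∧ 2 ^ M < p ∧ Gam p (2 ^ M) ≠ ⊤) :
    #E ≤ 24 * (16 * (i / M + 1)) ^ (4 * (i / M + 1)) := by
  set X : ℕ := 2 ^ (2 * i) - 1 with hX
  have hX0 : 1 ≤ 2 ^ (2 * i) := Nat.one_le_two_pow
  have hX1 : 2 ^ (2 * i) = 2 * 2 ^ (2 * i - 1) := by
    rw [← pow_succ']
    congr 1
    omega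
  have hX2 : 1 ≤ 2 ^ (2 * i - 1) := Nat.one_le_two_pow
  set S : Finset ℕ := (Icc 1 X).filter (fun N => ∀ l : ℕ, l.Prime → l ∣ N → l ≤ 2 ^ M) with hS
  have hS' : ∀ N : ℕ, N ∈ S ↔ (1 ≤ N ∧ N ≤ X) ∧ ∀ l : ℕ, l.Prime → l ∣ N → l ≤ 2 ^ M := by
    intro N
    rw [hS, mem_filter, mem_Icc]
  have hsm := hC (2 * i) M X h1 (by omega) (by omega) (by omega) S
    (fun N a1 a2 a3 => (hS' N).2 ⟨⟨a1, a2⟩, a3⟩)
  have hS1 : 1 ∈ S := (hS' 1).2 ⟨⟨le_rfl, by omega⟩, fun l hl hd => by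
    have := Nat.le_of_dvd one_pos hd
    have := hl.two_le
    omega⟩
  have hSpos : 0 < #S := card_pos.2 ⟨1, hS1⟩
  have hS0 : (0 : ℝ) < #S := by exact_mod_cast hSpos
  have hSsub : S ⊆ Icc 1 X := filter_subset _ _
  have hsub : E ⊆ Icc 1 (2 ^ i) := by
    intro p hp
    obtain ⟨a1, a2, _⟩ := hE p hp
    exact mem_Icc.2 ⟨a1.one_le, a2.le⟩
  set α : ℕ → ℂ := fun n => if n ∈ S then 1 else 0 with hα
  have hα2 : ∑ n ∈ Icc 1 X, ‖α n‖ ^ 2 = #S := by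
    have a1 : ∀ n ∈ Icc 1 X, ‖α n‖ ^ 2 = if n ∈ S then (1 : ℝ) else 0 := by
      intro n _
      by_cases h : n ∈ S <;> simp [hα, h]
    rw [sum_congr rfl a1, sum_ite_mem, inter_eq_right.2 hSsub]
    simp
  have hLS := Pool.Agent.Helper112.mult_large_sieve X (2 ^ i) α
  have hsum : ∀ p ∈ E, ∃ χ : DirichletCharacter ℂ p, χ ≠ 1 ∧
      ∑ n ∈ Icc 1 X, α n * χ (n : ZMod p) = (#S : ℂ) := by
    intro p hp
    obtain ⟨hpp, _, hY2, hY3⟩ := hE p hp
    have : Fact p.Prime := ⟨hpp⟩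
    obtain ⟨χ, hχ, hχ1⟩ := FEW.exists_char hY2 hY3
    refine ⟨χ, hχ, ?_⟩
    have a1 : ∀ n ∈ Icc 1 X, α n * χ (n : ZMod p) =
        if n ∈ S then χ (n : ZMod p) else 0 := by
      intro n _
      by_cases h : n ∈ S <;> simp [hα, h]
    rw [sum_congr rfl a1, sum_ite_mem, inter_eq_right.2 hSsub]
    have a2 : ∀ s ∈ S, χ ((s : ℕ) : ZMod p) = 1 := by
      intro s hs
      obtain ⟨⟨a3, a4⟩, a5⟩ := (hS' s).1 hs
      have a6 : ∀ l : ℕ, l.Prime → l ∣ s → χ ((l : ℕ) : ZMod p) = 1 := fun l hl hd =>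
        hχ1 l hl.one_le (a5 l hl hd)
      have a12 : ∀ m : ℕ, m ≠ 0 → (∀ l : ℕ, l.Prime → l ∣ m → χ ((l : ℕ) : ZMod p) = 1) →
          χ ((m : ℕ) : ZMod p) = 1 := by
        intro m
        induction m using Nat.recOnMul with
        | zero => intro h; exact absurd rfl h
        | one => intro _ _; simp
        | prime l hl => intro _ h; exact h l hl dvd_rfl
        | mul a b ha hb =>
          intro hab h
          have ha0 : a ≠ 0 := fun h0 => hab (by rw [h0, zero_mul])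
          have hb0 : b ≠ 0 := fun h0 => hab (by rw [h0, mul_zero])
          push_cast
          rw [map_mul, ha ha0 fun l hl hd => h l hl (hd.mul_right _),
            hb hb0 fun l hl hd => h l hl (hd.mul_left _), mul_one]
      exact a12 s (by omega) a6
    rw [sum_congr rfl a2]
    simp
  have hlow : (#E : ℝ) * (#S : ℝ) ^ 2 ≤ ∑ f ∈ Icc 1 ((2 : ℕ) ^ i), ((f : ℝ) / (Nat.totient f : ℝ)) *
      ∑ χ ∈ (univ : Finset (DirichletCharacter ℂ f)).filter (fun χ => χ.IsPrimitive),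
        ‖∑ n ∈ Icc 1 X, α n * χ (n : ZMod f)‖ ^ 2 := by
    rw [← nsmul_eq_mul, ← sum_const]
    refine le_trans (sum_le_sum ?_) (sum_le_sum_of_subset_of_nonneg hsub ?_)
    · intro p hp
      obtain ⟨χ, hχ1, hχM⟩ := hsum p hp
      have hpp := (hE p hp).1
      have hprim := Pool.Agent.H386R2.Artin.T1.prim_of_prime hpp hχ1
      have b1 : (#S : ℝ) ^ 2 = ‖∑ n ∈ Icc 1 X, α n * χ (n : ZMod p)‖ ^ 2 := by
        rw [hχM, Complex.norm_natCast]
      have b2 : ‖∑ n ∈ Icc 1 X, α n * χ (n : ZMod p)‖ ^ 2 ≤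
          ∑ χ ∈ (univ : Finset (DirichletCharacter ℂ p)).filter (fun χ => χ.IsPrimitive),
            ‖∑ n ∈ Icc 1 X, α n * χ (n : ZMod p)‖ ^ 2 :=
        single_le_sum (f := fun χ : DirichletCharacter ℂ p =>
          ‖∑ n ∈ Icc 1 X, α n * χ (n : ZMod p)‖ ^ 2)
          (fun _ _ => sq_nonneg _) (mem_filter.mpr ⟨mem_univ _, hprim⟩)
      have b3 : (1 : ℝ) ≤ (p : ℝ) / (Nat.totient p : ℝ) := by
        have h0 : (0 : ℝ) < (Nat.totient p : ℝ) := by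
          exact_mod_cast Nat.totient_pos.mpr hpp.pos
        rw [le_div_iff₀ h0, one_mul]
        exact_mod_cast Nat.totient_le p
      calc (#S : ℝ) ^ 2 ≤ _ := b1.le.trans b2
        _ ≤ _ := le_mul_of_one_le_left (sum_nonneg fun _ _ => sq_nonneg _) b3
    · intro f _ _
      exact mul_nonneg (div_nonneg (Nat.cast_nonneg _) (Nat.cast_nonneg _))
        (sum_nonneg fun _ _ => sq_nonneg _)
  have hXr : (X : ℝ) ≤ (2 : ℝ) ^ (2 * i) := by
    have : X ≤ 2 ^ (2 * i) := Nat.sub_le _ _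
    exact_mod_cast this
  have hup : (#E : ℝ) * (#S : ℝ) ^ 2 ≤ 12 * (2 : ℝ) ^ (2 * i) * #S := by
    have h0 : 6 * ((X : ℝ) + (((2 ^ i : ℕ) : ℝ)) ^ 2) *
        ∑ n ∈ Icc 1 X, ‖α n‖ ^ 2 ≤ 12 * (2 : ℝ) ^ (2 * i) * #S := by
      rw [hα2]
      have e1 : (((2 ^ i : ℕ) : ℝ)) ^ 2 = (2 : ℝ) ^ (2 * i) := by
        push_cast
        rw [← pow_mul, mul_comm]
      rw [e1]
      apply mul_le_mul_of_nonneg_right _ hS0.le
      linarith
    refine hlow.trans (le_trans ?_ h0)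
    convert hLS using 1
  have c1 : (#E : ℝ) * #S ≤ 12 * (2 : ℝ) ^ (2 * i) := by
    have h2 : (#E : ℝ) * #S * #S ≤ 12 * (2 : ℝ) ^ (2 * i) * #S := by
      calc (#E : ℝ) * #S * #S = (#E : ℝ) * (#S : ℝ) ^ 2 := by ring
        _ ≤ _ := hup
    exact le_of_mul_le_mul_right h2 hS0
  have c2 : #E * #S ≤ 12 * 2 ^ (2 * i) := by exact_mod_cast c1
  set k := i / M + 1 with hk
  have hk' : 2 * i / M + 1 ≤ 2 * k := by
    have a1 : i < M * (i / M + 1) := Nat.lt_mul_div_succ i (by omega)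
    have a2 : 2 * i < M * (2 * (i / M) + 2) := by
      have : M * (2 * (i / M) + 2) = 2 * (M * (i / M + 1)) := by ring
      omega
    have a3 : 2 * i / M < 2 * (i / M) + 2 := Nat.div_lt_of_lt_mul a2
    omega
  have hk1 : 1 ≤ 2 * i / M + 1 := Nat.succ_pos _
  set k' := 2 * i / M + 1 with hk'd
  have c3 : (8 * k') ^ (2 * k') ≤ (16 * k) ^ (4 * k) := by
    calc (8 * k') ^ (2 * k') ≤ (16 * k) ^ (2 * k') := Nat.pow_le_pow_left (by omega) _
      _ ≤ (16 * k) ^ (4 * k) := Nat.pow_le_pow_right (by omega) (by omega)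
  have c4 : 2 ^ (2 * i) ≤ 2 * ((16 * k) ^ (4 * k) * #S) := by
    have a1 : 2 ^ (2 * i) ≤ 2 * X := by omega
    have a2 : X ≤ (16 * k) ^ (4 * k) * #S := hsm.trans (Nat.mul_le_mul_right _ c3)
    omega
  have c5 : #E * #S ≤ (24 * (16 * k) ^ (4 * k)) * #S := by
    calc #E * #S ≤ 12 * 2 ^ (2 * i) := c2
      _ ≤ 12 * (2 * ((16 * k) ^ (4 * k) * #S)) := Nat.mul_le_mul_left _ c4
      _ = _ := by ring
  exact Nat.le_of_mul_le_mul_right c5 hSpos

end Pool.Agent.D0H57.SE
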